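import Mathlib

/-!
Averages over `k`-element subsets of a finite set: linearity, Cauchy-Schwarz, and the
double-counting identities used in the Manickam-Miklos-Singhi argument.
-/

set_option autoImplicit false
set_option linter.unusedSectionVars false

namespace Pool.Agent.H59.MMS

open Finset

variable {α : Type*} [DecidableEq α]

/-- The average of `F` over the `k`-element subsets of `V`. -/
noncomputable def av (k : ℕ) (V : Finset α) (F : Finset α → ℝ) : ℝ :=
  (∑ S ∈ V.powersetCard k, F S) / (V.card.choose k : ℝ)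

theorem av_congr {k : ℕ} {V : Finset α} {F G : Finset α → ℝ}
    (h : ∀ S, S ⊆ V → S.card = k → F S = G S) : av k V F = av k V G := by
  unfold av
  congr 1
  refine Finset.sum_congr rfl fun S hS => ?_
  rw [Finset.mem_powersetCard] at hS
  exact h S hS.1 hS.2

theorem av_add (k : ℕ) (V : Finset α) (F G : Finset α → ℝ) :
    av k V (fun S => F S + G S) = av k V F + av k V G := by
  unfold av
  rw [Finset.sum_add_distrib, add_div]

theorem av_sub (k : ℕ) (V : Finset α) (F G : Finset α → ℝ) :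
    av k V (fun S => F S - G S) = av k V F - av k V G := by
  unfold av
  rw [Finset.sum_sub_distrib, sub_div]

theorem av_mul (k : ℕ) (V : Finset α) (c : ℝ) (F : Finset α → ℝ) :
    av k V (fun S => c * F S) = c * av k V F := by
  unfold av
  rw [← Finset.mul_sum, mul_div_assoc]

theorem av_const {k : ℕ} {V : Finset α} (h : k ≤ V.card) (c : ℝ) :
    av k V (fun _ => c) = c := by
  unfold av
  rw [Finset.sum_const, Finset.card_powersetCard, nsmul_eq_mul]
  have : (V.card.choose k : ℝ) ≠ 0 := by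
    exact_mod_cast (Nat.choose_pos h).ne'
  field_simp

theorem av_mono {k : ℕ} {V : Finset α} {F G : Finset α → ℝ}
    (h : ∀ S, S ⊆ V → S.card = k → F S ≤ G S) : av k V F ≤ av k V G := by
  unfold av
  refine div_le_div_of_nonneg_right ?_ (by positivity)
  refine Finset.sum_le_sum fun S hS => ?_
  rw [Finset.mem_powersetCard] at hS
  exact h S hS.1 hS.2

theorem av_nonneg {k : ℕ} {V : Finset α} {F : Finset α → ℝ}
    (h : ∀ S, S ⊆ V → S.card = k → 0 ≤ F S) : 0 ≤ av k V F := by
  unfold av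
  refine div_nonneg ?_ (by positivity)
  refine Finset.sum_nonneg fun S hS => ?_
  rw [Finset.mem_powersetCard] at hS
  exact h S hS.1 hS.2

theorem av_cs (k : ℕ) (V : Finset α) (F G : Finset α → ℝ) :
    (av k V (fun S => F S * G S)) ^ 2 ≤
      av k V (fun S => F S ^ 2) * av k V (fun S => G S ^ 2) := by
  unfold av
  rw [div_pow, div_mul_div_comm, ← sq]
  refine div_le_div_of_nonneg_right ?_ (by positivity)
  exact Finset.sum_mul_sq_le_sq_mul_sq _ _ _

theorem av_zero (V : Finset α) (F : Finset α → ℝ) : av 0 V F = F ∅ := by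
  unfold av
  simp

theorem av_finset_sum {ι : Type*} (k : ℕ) (V : Finset α) (s : Finset ι)
    (F : ι → Finset α → ℝ) :
    av k V (fun S => ∑ i ∈ s, F i S) = ∑ i ∈ s, av k V (F i) := by
  unfold av
  rw [Finset.sum_comm, Finset.sum_div]

/-- Double counting: choosing a `(k+1)`-set and one of its elements. -/
theorem sum_peel (k : ℕ) (V : Finset α) (h : α → Finset α → ℝ) :
    ∑ S ∈ V.powersetCard (k + 1), ∑ i ∈ S, h i (S.erase i) =
      ∑ i ∈ V, ∑ S ∈ (V.erase i).powersetCard k, h i S := by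
  rw [Finset.sum_sigma', Finset.sum_sigma']
  refine Finset.sum_bij' (fun p _ => ⟨p.2, p.1.erase p.2⟩) (fun p _ => ⟨insert p.1 p.2, p.1⟩)
    ?_ ?_ ?_ ?_ ?_
  · rintro ⟨S, i⟩ hS
    simp only [Finset.mem_sigma, Finset.mem_powersetCard] at hS ⊢
    obtain ⟨⟨hSV, hc⟩, hi⟩ := hS
    refine ⟨hSV hi, Finset.erase_subset_erase _ hSV, ?_⟩
    rw [Finset.card_erase_of_mem hi, hc]; rfl
  · rintro ⟨i, S⟩ hS
    simp only [Finset.mem_sigma, Finset.mem_powersetCard] at hS ⊢
    obtain ⟨hi, hSV, hc⟩ := hS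
    have hiS : i ∉ S := fun hmem => (Finset.mem_erase.1 (hSV hmem)).1 rfl
    refine ⟨⟨?_, ?_⟩, Finset.mem_insert_self _ _⟩
    · exact Finset.insert_subset hi (hSV.trans (Finset.erase_subset _ _))
    · rw [Finset.card_insert_of_notMem hiS, hc]
  · rintro ⟨S, i⟩ hS
    simp only [Finset.mem_sigma, Finset.mem_powersetCard] at hS
    simp [Finset.insert_erase hS.2]
  · rintro ⟨i, S⟩ hS
    simp only [Finset.mem_sigma, Finset.mem_powersetCard] at hS
    obtain ⟨hi, hSV, hc⟩ := hS
    have hiS : i ∉ S := fun hmem => (Finset.mem_erase.1 (hSV hmem)).1 rfl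
    simp [Finset.erase_insert hiS]
  · rintro ⟨S, i⟩ hS
    rfl

/-- Double counting: choosing a `k`-set and an element outside it. -/
theorem sum_avoid (k : ℕ) (V : Finset α) (h : α → Finset α → ℝ) :
    ∑ i ∈ V, ∑ S ∈ (V.erase i).powersetCard k, h i S =
      ∑ S ∈ V.powersetCard k, ∑ i ∈ V \ S, h i S := by
  refine Finset.sum_comm' ?_
  intro i S
  simp only [Finset.mem_powersetCard, Finset.mem_sdiff]
  constructor
  · rintro ⟨hi, hS, hc⟩
    refine ⟨⟨hi, fun hmem => (Finset.mem_erase.1 (hS hmem)).1 rfl⟩,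
      hS.trans (Finset.erase_subset _ _), hc⟩
  · rintro ⟨⟨hi, hiS⟩, hS, hc⟩
    exact ⟨hi, Finset.subset_erase.2 ⟨hS, hiS⟩, hc⟩

theorem card_erase_cast {V : Finset α} {i : α} (hi : i ∈ V) :
    ((V.erase i).card : ℝ) = V.card - 1 := by
  rw [Finset.card_erase_of_mem hi, Nat.cast_sub (Finset.card_pos.2 ⟨i, hi⟩)]
  simp

theorem choose_peel {N k : ℕ} (h : k + 1 ≤ N) :
    ((k + 1 : ℕ) : ℝ) * (N.choose (k + 1)) = N * ((N - 1).choose k) := by
  obtain ⟨M, rfl⟩ : ∃ M, N = M + 1 := ⟨N - 1, by omega⟩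
  have := Nat.add_one_mul_choose_eq M k
  simp only [Nat.add_sub_cancel]
  rw [mul_comm]
  exact_mod_cast this.symm

theorem choose_avoid {N k : ℕ} (h : k + 1 ≤ N) :
    ((N : ℝ) - k) * (N.choose k) = N * ((N - 1).choose k) := by
  obtain ⟨M, rfl⟩ : ∃ M, N = M + 1 := ⟨N - 1, by omega⟩
  have h1 := Nat.choose_mul_succ_eq M k
  simp only [Nat.add_sub_cancel]
  have h2 : ((M.choose k * (M + 1) : ℕ) : ℝ) = (((M + 1).choose k * (M + 1 - k) : ℕ) : ℝ) := by
    rw [h1]
  push_cast [Nat.cast_sub (show k ≤ M + 1 by omega)] at h2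
  push_cast
  linarith

theorem av_peel {k : ℕ} {V : Finset α} (hk : k + 1 ≤ V.card) (h : α → Finset α → ℝ) :
    av (k + 1) V (fun S => ∑ i ∈ S, h i (S.erase i)) =
      ((k + 1 : ℝ) / V.card) * ∑ i ∈ V, av k (V.erase i) (h i) := by
  unfold av
  rw [sum_peel]
  have hN : (V.card : ℝ) ≠ 0 := by
    have : 0 < V.card := by omega
    positivity
  have hc1 : ((V.card.choose (k + 1) : ℕ) : ℝ) ≠ 0 := by
    exact_mod_cast (Nat.choose_pos hk).ne'
  have hc2 : (((V.card - 1).choose k : ℕ) : ℝ) ≠ 0 := by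
    exact_mod_cast (Nat.choose_pos (by omega)).ne'
  have e := choose_peel hk
  have : ∑ i ∈ V, (∑ S ∈ (V.erase i).powersetCard k, h i S) / ((V.erase i).card.choose k : ℝ)
      = (∑ i ∈ V, (∑ S ∈ (V.erase i).powersetCard k, h i S)) / ((V.card - 1).choose k : ℝ) := by
    rw [Finset.sum_div]
    refine Finset.sum_congr rfl fun i hi => ?_
    rw [Finset.card_erase_of_mem hi]
  rw [this]
  push_cast at e
  rw [div_mul_div_comm, div_eq_div_iff hc1 (mul_ne_zero hN hc2)]
  linear_combination (∑ i ∈ V, ∑ S ∈ powersetCard k (V.erase i), h i S) * (-e)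

theorem av_avoid {k : ℕ} {V : Finset α} (hk : k + 1 ≤ V.card) (h : α → Finset α → ℝ) :
    (∑ i ∈ V, av k (V.erase i) (h i)) / V.card =
      av k V (fun S => ∑ i ∈ V \ S, h i S) / (V.card - k) := by
  unfold av
  have hN : (V.card : ℝ) ≠ 0 := by
    have : 0 < V.card := by omega
    positivity
  have hNk : (V.card : ℝ) - k ≠ 0 := by
    have : (k : ℝ) + 1 ≤ V.card := by exact_mod_cast hk
    linarith
  have hc1 : ((V.card.choose k : ℕ) : ℝ) ≠ 0 := by
    exact_mod_cast (Nat.choose_pos (by omega)).ne'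
  have hc2 : (((V.card - 1).choose k : ℕ) : ℝ) ≠ 0 := by
    exact_mod_cast (Nat.choose_pos (by omega)).ne'
  have e := choose_avoid hk
  have : ∑ i ∈ V, (∑ S ∈ (V.erase i).powersetCard k, h i S) / ((V.erase i).card.choose k : ℝ)
      = (∑ i ∈ V, (∑ S ∈ (V.erase i).powersetCard k, h i S)) / ((V.card - 1).choose k : ℝ) := by
    rw [Finset.sum_div]
    refine Finset.sum_congr rfl fun i hi => ?_
    rw [Finset.card_erase_of_mem hi]
  rw [this, sum_avoid, div_div, div_div, mul_comm (V.card.choose k : ℝ), e]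
  ring_nf

theorem av_split {k : ℕ} {V : Finset α} {i : α} (hi : i ∈ V) (hk : k + 1 ≤ V.card)
    (F : Finset α → ℝ) :
    av (k + 1) V F =
      (((V.card : ℝ) - (k + 1)) / V.card) * av (k + 1) (V.erase i) F +
      ((k + 1 : ℝ) / V.card) * av k (V.erase i) (fun S => F (insert i S)) := by
  have hN : (V.card : ℝ) ≠ 0 := by
    have : 0 < V.card := by omega
    positivity
  have hc1 : ((V.card.choose (k + 1) : ℕ) : ℝ) ≠ 0 := by
    exact_mod_cast (Nat.choose_pos hk).ne'
  have hc2 : (((V.card - 1).choose k : ℕ) : ℝ) ≠ 0 := by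
    exact_mod_cast (Nat.choose_pos (by omega)).ne'
  have hni : i ∉ V.erase i := Finset.notMem_erase i V
  have hsum : ∑ S ∈ V.powersetCard (k + 1), F S =
      ∑ S ∈ (V.erase i).powersetCard (k + 1), F S +
      ∑ S ∈ (V.erase i).powersetCard k, F (insert i S) := by
    conv_lhs => rw [← Finset.insert_erase hi]
    rw [Finset.powersetCard_succ_insert hni, Finset.sum_union, Finset.sum_image]
    · intro S hS T hT hST
      simp only [Finset.mem_coe, Finset.mem_powersetCard] at hS hT
      have hiS : i ∉ S := fun hmem => hni (hS.1 hmem)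
      have hiT : i ∉ T := fun hmem => hni (hT.1 hmem)
      rw [← Finset.erase_insert hiS, ← Finset.erase_insert hiT]
      exact congrArg (fun U => Finset.erase U i) hST
    · rw [Finset.disjoint_left]
      intro S hS hS'
      rw [Finset.mem_powersetCard] at hS
      rw [Finset.mem_image] at hS'
      obtain ⟨T, _, rfl⟩ := hS'
      exact hni (hS.1 (Finset.mem_insert_self _ _))
  unfold av
  rw [hsum, Finset.card_erase_of_mem hi]
  have e1 := choose_peel hk
  push_cast at e1
  rcases Nat.lt_or_ge (k + 1) V.card with hlt | hge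
  · have hc3 : (((V.card - 1).choose (k + 1) : ℕ) : ℝ) ≠ 0 := by
      exact_mod_cast (Nat.choose_pos (by omega)).ne'
    have e2 := choose_avoid (N := V.card) (k := k + 1) (by omega)
    push_cast at e2
    rw [add_div]
    congr 1
    · rw [div_mul_div_comm, div_eq_div_iff hc1 (mul_ne_zero hN hc3)]
      rw [← e2]; ring
    · rw [div_mul_div_comm, div_eq_div_iff hc1 (mul_ne_zero hN hc2)]
      rw [← e1]; ring
  · have hcard : V.card = k + 1 := le_antisymm hge hk
    have hempty : (V.erase i).powersetCard (k + 1) = ∅ := by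
      apply Finset.powersetCard_eq_empty.2
      rw [Finset.card_erase_of_mem hi]; omega
    rw [hempty, Finset.sum_empty, zero_add, zero_div, mul_zero, zero_add]
    rw [div_mul_div_comm, div_eq_div_iff hc1 (mul_ne_zero hN hc2)]
    rw [← e1]; ring

end Pool.Agent.H59.MMS
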