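import Pool.Agent.H59.MMS.Cases

/-!
The base window `3k ≤ n < 4k`: the fourth moment method.
-/

set_option autoImplicit false
set_option linter.unusedSectionVars false

namespace Pool.Agent.H59.MMS

open Finset

variable {α : Type*} [DecidableEq α]

theorem test_poly_sym {t : ℝ} (ht : 0 < t) (s : ℝ) :
    2 * t ^ 3 * s + 3 * t ^ 2 * s ^ 2 - s ^ 4 ≤
      (97 / 20 * t ^ 4) * (if 0 ≤ s then (1 : ℝ) else 0) := by
  obtain ⟨z, rfl⟩ : ∃ z, s = t * z := ⟨s / t, by field_simp⟩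
  have hiff : (0 ≤ t * z) ↔ 0 ≤ z := by
    constructor
    · intro h; exact nonneg_of_mul_nonneg_right h ht
    · intro h; positivity
  have ht4 : 0 < t ^ 4 := by positivity
  have e : 2 * t ^ 3 * (t * z) + 3 * t ^ 2 * (t * z) ^ 2 - (t * z) ^ 4 =
      t ^ 4 * (2 * z + 3 * z ^ 2 - z ^ 4) := by ring
  rw [e]
  by_cases h : 0 ≤ z
  · rw [if_pos (hiff.2 h), mul_one]
    have : 2 * z + 3 * z ^ 2 - z ^ 4 ≤ 97 / 20 := by
      nlinarith [sq_nonneg (z ^ 2 - 1866 / 1000), sq_nonneg (z - 1366 / 1000)]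
    nlinarith
  · rw [if_neg (fun h' => h (hiff.1 h')), mul_zero]
    push Not at h
    have h1 : 2 * z + 3 * z ^ 2 - z ^ 4 = (-z) * (z - 2) * (z + 1) ^ 2 := by ring
    have h2 : (-z) * (z - 2) ≤ 0 := by nlinarith
    have h3 : 2 * z + 3 * z ^ 2 - z ^ 4 ≤ 0 := by
      rw [h1]; nlinarith [sq_nonneg (z + 1)]
    nlinarith

/-- Base window. -/
theorem LB.base {k n : ℕ} (hk : 1 ≤ k) (h3 : 3 * (k + 1) ≤ n) (h4 : n < 4 * (k + 1)) :
    LB α (k + 1) n (2 / 13) := by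
  refine LB.of_normalized (by omega) (by omega) (by norm_num) ?_
  intro V x hV hx hQ
  have hkR : (1 : ℝ) ≤ k := by exact_mod_cast hk
  have h3R : (3 * (k + 1) : ℝ) ≤ n := by exact_mod_cast h3
  have h4R : (n : ℝ) + 1 ≤ 4 * (k + 1) := by exact_mod_cast h4
  set K : ℝ := (k : ℝ) + 1 with hK
  set N : ℝ := (n : ℝ) with hN
  have hN1 : 0 < N - 1 := by linarith
  have hN2 : 0 < N - 2 := by linarith
  have hN3 : 0 < N - 3 := by linarith
  have hN0 : 0 < N := by linarith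
  have hNK : 0 < N - K := by linarith
  have hNK1 : 0 < N - K - 1 := by linarith
  have hK0 : 0 < K := by linarith
  set a := A2 K N with ha
  have hapos : 0 < a := by rw [ha]; unfold A2; positivity
  set t := Real.sqrt (2 * a) with ht
  have htpos : 0 < t := Real.sqrt_pos.2 (by linarith)
  have ht2 : t ^ 2 = 2 * a := Real.sq_sqrt (by linarith)
  have e : av (k + 1) V (fun S => 2 * t ^ 3 * (∑ j ∈ S, x j) + 3 * t ^ 2 * (∑ j ∈ S, x j) ^ 2 -
      (∑ j ∈ S, x j) ^ 4) ≤ (97 / 20 * t ^ 4) * av (k + 1) V (nn x) := by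
    rw [← av_mul]
    exact av_mono fun S _ _ => test_poly_sym htpos _
  have hcard4 : 4 ≤ V.card := by omega
  rw [av_sub, av_add, av_mul, av_mul, mom1 (by omega) (by omega), mom2 (by omega) (by omega),
    mom4 (by omega) hcard4 x hx, hx, hQ, hV] at e
  push_cast at e
  rw [← hK, ← hN] at e
  have m2 : K / N * 1 + K * (K - 1) / (N * (N - 1)) * (0 ^ 2 - 1) = a := by
    rw [ha]; unfold A2; field_simp; ring
  rw [m2] at e
  have hP4 : 0 ≤ ∑ j ∈ V, x j ^ 4 := Finset.sum_nonneg fun j _ => by positivity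
  have hA4 : K * (N - K) * (N * (N + 1) - 6 * K * (N - K)) /
      (N * (N - 1) * (N - 2) * (N - 3)) * ∑ j ∈ V, x j ^ 4 ≤ 0 := by
    apply mul_nonpos_of_nonpos_of_nonneg _ hP4
    apply div_nonpos_of_nonpos_of_nonneg _ (by positivity)
    apply mul_nonpos_of_nonneg_of_nonpos (by positivity)
    nlinarith
  have hA22 : 3 * K * (K - 1) * (N - K) * (N - K - 1) / (N * (N - 1) * (N - 2) * (N - 3)) ≤
      3 * a ^ 2 := by
    rw [ha, ← sub_nonneg]
    unfold A2
    have : 3 * (K * (N - K) / (N * (N - 1))) ^ 2 -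
        3 * K * (K - 1) * (N - K) * (N - K - 1) / (N * (N - 1) * (N - 2) * (N - 3)) =
        3 * K * (N - K) * (K * (N - K) * (N - 2) * (N - 3) -
          (K - 1) * (N - K - 1) * N * (N - 1)) / (N ^ 2 * (N - 1) ^ 2 * (N - 2) * (N - 3)) := by
      field_simp
    rw [this]
    apply div_nonneg _ (by positivity)
    apply mul_nonneg (by positivity)
    -- `K(N-K)(N-2)(N-3) - (K-1)(N-K-1)N(N-1) = N (N-1)^2 - K (N-K)(4N-6)`
    have e1 : K * (N - K) * (N - 2) * (N - 3) - (K - 1) * (N - K - 1) * N * (N - 1) =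
        N * (N - 1) ^ 2 - K * (N - K) * (4 * N - 6) := by ring
    rw [e1]
    have h5 : K * (N - K) ≤ 2 / 9 * N ^ 2 := by nlinarith
    nlinarith [mul_le_mul_of_nonneg_right h5 (show 0 ≤ 4 * N - 6 by linarith),
      sq_nonneg (N - 3)]
  have ht4 : t ^ 4 = 4 * a ^ 2 := by
    have : t ^ 4 = (t ^ 2) ^ 2 := by ring
    rw [this, ht2]; ring
  rw [ht2, ht4] at e
  have hfin : 3 * a ^ 2 ≤ 97 / 20 * (4 * a ^ 2) * av (k + 1) V (nn x) := by
    nlinarith
  have ha2 : 0 < a ^ 2 := by positivity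
  have : a ^ 2 * 3 ≤ a ^ 2 * (97 / 5 * av (k + 1) V (nn x)) := by nlinarith
  have := le_of_mul_le_mul_left this ha2
  linarith

end Pool.Agent.H59.MMS
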