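import Pool.Agent.H59.MMS.Mixing

/-!
The lower-bound property `LB`, the recursion `1/L(n) ≤ 1/L(n-k) + 1`, the induction step
`MMS(n-k,k) → MMS(n,k)` and the normalisation.
-/

set_option autoImplicit false
set_option linter.unusedSectionVars false

namespace Pool.Agent.H59.MMS

open Finset

variable {α : Type*} [DecidableEq α]

/-- Indicator of a nonnegative sum. -/
noncomputable def nn (x : α → ℝ) (S : Finset α) : ℝ := if 0 ≤ ∑ i ∈ S, x i then 1 else 0

theorem nn_nonneg (x : α → ℝ) (S : Finset α) : 0 ≤ nn x S := by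
  unfold nn; split_ifs <;> norm_num

theorem nn_le_one (x : α → ℝ) (S : Finset α) : nn x S ≤ 1 := by
  unfold nn; split_ifs <;> norm_num

theorem nn_sq (x : α → ℝ) (S : Finset α) : nn x S ^ 2 = nn x S := by
  unfold nn; split_ifs <;> norm_num

/-- Every weight system with nonnegative total on an `m`-set has at least a fraction `ℓ` of its
`k`-subsets with nonnegative sum. -/
def LB (α : Type*) [DecidableEq α] (k m : ℕ) (ℓ : ℝ) : Prop :=
  ∀ (V : Finset α) (x : α → ℝ), V.card = m → 0 ≤ ∑ i ∈ V, x i → ℓ ≤ av k V (nn x)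

theorem LB.mono {k m : ℕ} {ℓ ℓ' : ℝ} (h : LB α k m ℓ) (hl : ℓ' ≤ ℓ) : LB α k m ℓ' :=
  fun V x hV hx => hl.trans (h V x hV hx)

theorem av_disj (g : Finset α → ℝ) {b : ℕ} : ∀ (a : ℕ) (M : Finset α), a + b ≤ M.card →
    av a M (fun A => av b (M \ A) g) = av b M g := by
  intro a
  induction a with
  | zero =>
    intro M _
    rw [av_zero]
    simp
  | succ a ih =>
    intro M hM
    rw [av_peel' (by omega)]
    have : ∀ s ∈ M, av a (M.erase s) (fun A => av b (M \ insert s A) g) =
        av b (M.erase s) g := by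
      intro s hs
      rw [← ih (M.erase s) (by rw [Finset.card_erase_of_mem hs]; omega)]
      refine av_congr fun A _ _ => ?_
      have : M \ insert s A = (M.erase s) \ A := by
        ext z; simp only [Finset.mem_sdiff, Finset.mem_insert, Finset.mem_erase]; tauto
      rw [this]
    rw [Finset.sum_congr rfl this, av_erase_avg (by omega)]

/-- The recursion `1/L(n) ≤ 1/L(n-k) + 1`. -/
theorem LB.step {k n : ℕ} {ℓ : ℝ} (hn : 2 * k ≤ n) (hl : 0 ≤ ℓ) (h : LB α k (n - k) ℓ) :
    LB α k n (ℓ / (1 + ℓ)) := by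
  intro V x hV hx
  have h1 := av_disj (nn x) k V (b := k) (by omega)
  have h2 : av k V (fun S => ℓ * (1 - nn x S)) ≤ av k V (fun S => av k (V \ S) (nn x)) := by
    refine av_mono fun S hS hc => ?_
    by_cases hs : 0 ≤ ∑ i ∈ S, x i
    · have : nn x S = 1 := by simp [nn, hs]
      rw [this, sub_self, mul_zero]
      exact av_nonneg fun T _ _ => nn_nonneg x T
    · have h0 : nn x S = 0 := by simp [nn, hs]
      rw [h0, sub_zero, mul_one]
      refine h (V \ S) x ?_ ?_
      · rw [Finset.card_sdiff_of_subset hS, hc, hV]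
      · have := Finset.sum_sdiff hS (f := x)
        push Not at hs
        linarith
  rw [h1, av_mul, av_sub, av_const (by omega)] at h2
  rw [div_le_iff₀ (by linarith)]
  linarith

/-- Splitting according to a distinguished element. -/
theorem phi_split {k : ℕ} {V : Finset α} {i : α} (hi : i ∈ V) (hk : k + 1 ≤ V.card)
    (x : α → ℝ) :
    av (k + 1) V (nn x) =
      (((V.card : ℝ) - (k + 1)) / V.card) * av (k + 1) (V.erase i) (nn x) +
      ((k + 1 : ℝ) / V.card) *
        (1 - av k (V.erase i) (fun S => if x i + ∑ j ∈ S, x j < 0 then 1 else 0)) := by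
  rw [av_split hi hk]
  congr 2
  rw [av_congr (G := fun S => 1 - if x i + ∑ j ∈ S, x j < 0 then (1 : ℝ) else 0), av_sub,
    av_const (by rw [Finset.card_erase_of_mem hi]; omega)]
  intro S hS _
  unfold nn
  rw [sum_insert_of_sub hS x]
  by_cases h : x i + ∑ j ∈ S, x j < 0
  · simp [h]
  · simp [h, not_lt.1 h]

/-- The induction step of Manickam and Singhi. -/
theorem LB.mms_step {k n : ℕ} (hn : 2 * (k + 1) ≤ n)
    (h : LB α (k + 1) (n - (k + 1)) ((k + 1 : ℝ) / ((n : ℝ) - (k + 1)))) :
    LB α (k + 1) n ((k + 1 : ℝ) / n) := by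
  intro V x hV hx
  have hVpos : 0 < V.card := by omega
  obtain ⟨i, hi⟩ := Finset.card_pos.1 hVpos
  have hM : (V.erase i).card = n - 1 := by rw [Finset.card_erase_of_mem hi, hV]
  rw [phi_split hi (by omega)]
  set w := av k (V.erase i) (fun S => if x i + ∑ j ∈ S, x j < 0 then (1 : ℝ) else 0) with hw
  have h1 := av_disj (nn x) k (V.erase i) (b := k + 1) (by omega)
  have hnR : (2 * (k + 1) : ℝ) ≤ n := by exact_mod_cast hn
  have hk1 : (0 : ℝ) < k + 1 := by positivity
  have h2 : av k (V.erase i) (fun S => ((k + 1 : ℝ) / ((n : ℝ) - (k + 1))) *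
      (if x i + ∑ j ∈ S, x j < 0 then (1 : ℝ) else 0)) ≤
      av k (V.erase i) (fun S => av (k + 1) (V.erase i \ S) (nn x)) := by
    refine av_mono fun S hS hc => ?_
    by_cases hs : x i + ∑ j ∈ S, x j < 0
    · simp only [hs, if_true, mul_one]
      refine h (V.erase i \ S) x ?_ ?_
      · rw [Finset.card_sdiff_of_subset hS, hc, hM]; omega
      · have e1 := Finset.sum_sdiff hS (f := x)
        have e2 := sum_erase_one hi x
        linarith
    · simp only [hs, if_false, mul_zero]
      exact av_nonneg fun T _ _ => nn_nonneg x T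
  rw [h1, av_mul, ← hw] at h2
  rw [hV]
  have hpos : (0 : ℝ) < n - (k + 1) := by linarith
  have hn0 : (0 : ℝ) < n := by linarith
  have h3 : ((n : ℝ) - (k + 1)) / n * ((k + 1 : ℝ) / ((n : ℝ) - (k + 1)) * w) ≤
      ((n : ℝ) - (k + 1)) / n * av (k + 1) (V.erase i) (nn x) :=
    mul_le_mul_of_nonneg_left h2 (by positivity)
  have h4 : ((n : ℝ) - (k + 1)) / n * ((k + 1 : ℝ) / ((n : ℝ) - (k + 1)) * w) =
      ((k + 1 : ℝ) / n) * w := by
    field_simp
  rw [h4] at h3
  have h5 : ((k + 1 : ℝ) / n) * (1 - w) = (k + 1 : ℝ) / n - ((k + 1 : ℝ) / n) * w := by ring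
  linarith

/-- It suffices to treat weights with total `0` and square sum `1`. -/
theorem LB.of_normalized {k n : ℕ} {τ : ℝ} (hk : k ≤ n) (hn : 1 ≤ n) (hτ : τ ≤ 1)
    (h : ∀ (V : Finset α) (x : α → ℝ), V.card = n → ∑ i ∈ V, x i = 0 →
      ∑ i ∈ V, x i ^ 2 = 1 → τ ≤ av k V (nn x)) : LB α k n τ := by
  intro V x hV hx
  have hn0 : (n : ℝ) ≠ 0 := by positivity
  set T := ∑ i ∈ V, x i with hT
  set y : α → ℝ := fun i => x i - T / n with hy
  have hysum : ∑ i ∈ V, y i = 0 := by
    simp only [hy]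
    rw [Finset.sum_sub_distrib, Finset.sum_const, nsmul_eq_mul, hV, ← hT]
    field_simp
    ring
  have hle : av k V (nn y) ≤ av k V (nn x) := by
    refine av_mono fun S hS hc => ?_
    have hs : ∑ i ∈ S, y i ≤ ∑ i ∈ S, x i := by
      refine Finset.sum_le_sum fun i _ => ?_
      simp only [hy]
      have : 0 ≤ T / n := by positivity
      linarith
    unfold nn
    by_cases h1 : 0 ≤ ∑ i ∈ S, y i
    · simp [h1, h1.trans hs]
    · simp only [h1, if_false]
      split_ifs <;> norm_num
  refine le_trans ?_ hle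
  set Q := ∑ i ∈ V, y i ^ 2 with hQ
  have hQ0 : 0 ≤ Q := Finset.sum_nonneg fun i _ => sq_nonneg _
  rcases hQ0.eq_or_lt with h0 | hpos
  · have hz : ∀ i ∈ V, y i = 0 := by
      have := (Finset.sum_eq_zero_iff_of_nonneg (fun i _ => sq_nonneg (y i))).1 (hQ ▸ h0.symm)
      intro i hi
      exact pow_eq_zero_iff (two_ne_zero) |>.1 (this i hi)
    have : av k V (nn y) = 1 := by
      rw [av_congr (G := fun _ => (1 : ℝ)), av_const (by omega)]
      intro S hS _
      unfold nn
      rw [Finset.sum_eq_zero fun i hi => hz i (hS hi)]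
      simp
    rw [this]; exact hτ
  · set s := Real.sqrt Q with hs
    have hs0 : 0 < s := Real.sqrt_pos.2 hpos
    have hss : s ^ 2 = Q := Real.sq_sqrt hQ0
    have e := h V (fun i => y i / s) hV (by rw [← Finset.sum_div, hysum, zero_div])
      (by
        simp only [div_pow]
        rw [← Finset.sum_div, hss, ← hQ, div_self hpos.ne'])
    refine e.trans (le_of_eq ?_)
    refine av_congr fun S _ _ => ?_
    unfold nn
    have : (0 ≤ ∑ i ∈ S, y i / s) ↔ (0 ≤ ∑ i ∈ S, y i) := by
      rw [← Finset.sum_div]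
      constructor
      · intro h
        have := mul_nonneg h hs0.le
        rwa [div_mul_cancel₀ _ hs0.ne'] at this
      · intro h; positivity
    simp only [this]

end Pool.Agent.H59.MMS
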