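import Pool.Agent.H59.MMS.Basic

/-!
The three cases: a large positive element (mixing lemma and a second-moment bound), a large
negative element (second moment), and no large element (cubic-quartic moment test).
-/

set_option autoImplicit false
set_option linter.unusedSectionVars false

namespace Pool.Agent.H59.MMS

open Finset

variable {α : Type*} [DecidableEq α]

noncomputable def A2 (k N : ℝ) : ℝ := k * (N - k) / (N * (N - 1))
noncomputable def A3 (k N : ℝ) : ℝ := k * (N - k) * (N - 2 * k) / (N * (N - 1) * (N - 2))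
noncomputable def A4 (k N : ℝ) : ℝ :=
  k * (N - k) * (N * (N + 1) - 6 * k * (N - k)) / (N * (N - 1) * (N - 2) * (N - 3))
noncomputable def A22 (k N : ℝ) : ℝ :=
  3 * k * (k - 1) * (N - k) * (N - k - 1) / (N * (N - 1) * (N - 2) * (N - 3))

/-- Indicator of a negative sum after adding the element `i`. -/
noncomputable def bad (x : α → ℝ) (i : α) (S : Finset α) : ℝ :=
  if x i + ∑ j ∈ S, x j < 0 then 1 else 0

theorem bad_nonneg (x : α → ℝ) (i : α) (S : Finset α) : 0 ≤ bad x i S := by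
  unfold bad; split_ifs <;> norm_num

theorem bad_sq (x : α → ℝ) (i : α) (S : Finset α) : bad x i S ^ 2 = bad x i S := by
  unfold bad; split_ifs <;> norm_num

theorem test_poly (t : ℝ) :
    t * (1 - t) * (t + 59 / 100) ^ 2 ≤ (3511 / 10000) * (if 0 ≤ t then (1 : ℝ) else 0) := by
  split_ifs with h
  · nlinarith [sq_nonneg (t ^ 2 + 9 / 100 * t - 5147 / 10000), sq_nonneg (t - 674377 / 1000000)]
  · push Not at h
    rw [mul_zero]
    have h1 : t * (1 - t) ≤ 0 := by nlinarith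
    nlinarith [sq_nonneg (t + 59 / 100)]

/-- The moment test. -/
theorem direct {k : ℕ} {V : Finset α} (x : α → ℝ) (hk : k ≤ V.card) (hV : 4 ≤ V.card)
    (hx : ∑ j ∈ V, x j = 0) (hQ : ∑ j ∈ V, x j ^ 2 = 1) {sp sm pen : ℝ}
    (hsp : ∀ i ∈ V, x i ≤ sp) (hsm : ∀ i ∈ V, -sm ≤ x i) (hs : 0 < sp + sm)
    (hA4 : 0 ≤ A4 k V.card)
    (h1 : A4 k V.card * sp ^ 2 + 18 / 100 * A3 k V.card * sp ≤ pen)
    (h2 : A4 k V.card * sm ^ 2 - 18 / 100 * A3 k V.card * sm ≤ pen) :
    8319 / 10000 * A2 k V.card - A22 k V.card - pen ≤ 3511 / 10000 * av k V (nn x) := by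
  have hN : (4 : ℝ) ≤ V.card := by exact_mod_cast hV
  have hN0 : (V.card : ℝ) ≠ 0 := by positivity
  have hN1 : (V.card : ℝ) - 1 ≠ 0 := by linarith
  have hN2 : (V.card : ℝ) - 2 ≠ 0 := by linarith
  have hN3 : (V.card : ℝ) - 3 ≠ 0 := by linarith
  have e : av k V (fun S => (∑ j ∈ S, x j) * (1 - ∑ j ∈ S, x j) *
      ((∑ j ∈ S, x j) + 59 / 100) ^ 2) ≤ 3511 / 10000 * av k V (nn x) := by
    rw [← av_mul]
    exact av_mono fun S _ _ => test_poly _
  refine le_trans ?_ e
  have e2 : (fun S : Finset α => (∑ j ∈ S, x j) * (1 - ∑ j ∈ S, x j) *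
      ((∑ j ∈ S, x j) + 59 / 100) ^ 2) = fun S =>
      (((-1) * (∑ j ∈ S, x j) ^ 4 + (-(18 / 100)) * (∑ j ∈ S, x j) ^ 3) +
      (8319 / 10000) * (∑ j ∈ S, x j) ^ 2) + (3481 / 10000) * (∑ j ∈ S, x j) := by
    funext S; ring
  rw [e2, av_add, av_add, av_add, av_mul, av_mul, av_mul, av_mul, mom4 hk hV x hx,
    mom3 hk (by omega), mom2 hk (by omega), mom1 hk (by omega), hx, hQ]
  have m3 : (k / V.card : ℝ) * ∑ j ∈ V, x j ^ 3 +
      3 * ((k : ℝ) * (k - 1) / (V.card * (V.card - 1))) *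
        (0 * 1 - ∑ j ∈ V, x j ^ 3) +
      ((k : ℝ) * (k - 1) * (k - 2) / (V.card * (V.card - 1) * (V.card - 2))) *
        (0 ^ 3 - 3 * 0 * 1 + 2 * ∑ j ∈ V, x j ^ 3) = A3 k V.card * ∑ j ∈ V, x j ^ 3 := by
    unfold A3
    field_simp
    ring
  have m2 : (k / V.card : ℝ) * 1 +
      ((k : ℝ) * (k - 1) / (V.card * (V.card - 1))) * (0 ^ 2 - 1) = A2 k V.card := by
    unfold A2
    field_simp
    ring
  rw [m3, m2]
  have key : A4 k V.card * ∑ j ∈ V, x j ^ 4 + 18 / 100 * A3 k V.card * ∑ j ∈ V, x j ^ 3 ≤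
      pen := by
    have : ∀ j ∈ V, A4 k V.card * x j ^ 4 + 18 / 100 * A3 k V.card * x j ^ 3 ≤
        pen * x j ^ 2 := by
      intro j hj
      have a1 := hsp j hj
      have a2 := hsm j hj
      have a3 : A4 k V.card * x j ^ 2 + 18 / 100 * A3 k V.card * x j ≤ pen := by
        have b1 : x j ^ 2 ≤ (sp - sm) * x j + sp * sm := by nlinarith
        have b2 : A4 k V.card * x j ^ 2 ≤ A4 k V.card * ((sp - sm) * x j + sp * sm) :=
          mul_le_mul_of_nonneg_left b1 hA4
        -- linear in `x j`, check both ends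
        have b3 : (sp + sm) * (A4 k V.card * ((sp - sm) * x j + sp * sm) +
            18 / 100 * A3 k V.card * x j) ≤ (sp + sm) * pen := by
          have c1 := mul_le_mul_of_nonneg_left h1 (show 0 ≤ x j + sm by linarith)
          have c2 := mul_le_mul_of_nonneg_left h2 (show 0 ≤ sp - x j by linarith)
          nlinarith
        have b4 := le_of_mul_le_mul_left b3 hs
        linarith
      have := mul_le_mul_of_nonneg_right a3 (sq_nonneg (x j))
      nlinarith
    have h := Finset.sum_le_sum this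
    rw [Finset.sum_add_distrib, ← Finset.mul_sum, ← Finset.mul_sum, ← Finset.mul_sum, hQ] at h
    linarith
  unfold A4 A22 at *
  linarith

/-- The mixing inequality for sets containing `i`. -/
theorem mix_ineq {k : ℕ} {V : Finset α} {i : α} (hi : i ∈ V) (hn : 2 * (k + 1) ≤ V.card)
    {ℓ : ℝ} (hLB : LB α (k + 1) (V.card - (k + 1)) ℓ) (x : α → ℝ) (hx : ∑ j ∈ V, x j = 0)
    (hw : 0 < av k (V.erase i) (bad x i))
    (hr : av (k + 1) (V.erase i) (nn x) ≤ ℓ) :
    av k (V.erase i) (bad x i) * (ℓ - av (k + 1) (V.erase i) (nn x)) ^ 2 ≤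
      (1 - av k (V.erase i) (bad x i)) *
      (((k : ℝ) * (k + 1) / (((V.card : ℝ) - (k + 1)) * (V.card - (k + 1) - 1))) *
      (av (k + 1) (V.erase i) (nn x) * (1 - av (k + 1) (V.erase i) (nn x)))) := by
  set M := V.erase i with hM
  have hMc : M.card = V.card - 1 := by rw [hM, Finset.card_erase_of_mem hi]
  have hMr : (M.card : ℝ) = V.card - 1 := card_erase_cast hi
  set w := av k M (bad x i) with hwdef
  set r := av (k + 1) M (nn x) with hrdef
  set G : Finset α → ℝ := fun S => av (k + 1) (M \ S) (nn x) with hG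
  have hGavg : av k M G = r := av_disj (nn x) k M (by omega)
  have h1 : w * ℓ ≤ av k M (fun S => bad x i S * G S) := by
    rw [hwdef, mul_comm, ← av_mul]
    refine av_mono fun S hS hc => ?_
    by_cases hs : x i + ∑ j ∈ S, x j < 0
    · have : bad x i S = 1 := by simp [bad, hs]
      rw [this, mul_one, one_mul]
      refine hLB (M \ S) x ?_ ?_
      · rw [Finset.card_sdiff_of_subset hS, hc, hMc]; omega
      · have e1 := Finset.sum_sdiff hS (f := x)
        have e2 := sum_erase_one hi x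
        linarith
    · have : bad x i S = 0 := by simp [bad, hs]
      rw [this]; simp
  have hcs := av_cs k M (fun S => bad x i S - w) (fun S => G S - r)
  have hcov : av k M (fun S => (bad x i S - w) * (G S - r)) =
      av k M (fun S => bad x i S * G S) - w * r := by
    have : (fun S => (bad x i S - w) * (G S - r)) = fun S =>
        ((bad x i S * G S - r * bad x i S) - w * G S) + w * r := by
      funext S; ring
    rw [this, av_add, av_sub, av_sub, av_mul, av_mul, av_const (by omega), hGavg, ← hwdef]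
    ring
  have hvf : av k M (fun S => (bad x i S - w) ^ 2) = w - w ^ 2 := by
    rw [av_var (by omega)]
    simp only [bad_sq]
    rw [← hwdef]; ring
  have hmix := mixing (nn x) (b := k + 1) k M (by omega)
  have hvg : av k M (fun S => (G S - r) ^ 2) ≤
      ((k : ℝ) * (k + 1) / (((V.card : ℝ) - (k + 1)) * (V.card - (k + 1) - 1))) *
        (r * (1 - r)) := by
    rw [av_var (by omega), hGavg]
    simp only [nn_sq] at hmix
    rw [← hrdef, hMr] at hmix
    push_cast at hmix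
    rw [show ((V.card : ℝ) - 1 - k) = (V.card : ℝ) - (k + 1) by ring,
      show ((V.card : ℝ) - 1 - (k + 1)) = (V.card : ℝ) - (k + 1) - 1 by ring] at hmix
    rw [show r * (1 - r) = r - r ^ 2 by ring]
    simp only [hG]
    linarith
  rw [hcov, hvf] at hcs
  have hw1 : w ≤ 1 := by
    have := av_mono (k := k) (V := M) (F := bad x i) (G := fun _ => (1 : ℝ))
      (fun S _ _ => by unfold bad; split_ifs <;> norm_num)
    rwa [av_const (by omega)] at this
  have h2 : (w * (ℓ - r)) ^ 2 ≤ (av k M (fun S => bad x i S * G S) - w * r) ^ 2 := by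
    refine pow_le_pow_left₀ (mul_nonneg hw.le (by linarith)) ?_ 2
    nlinarith
  have h3 : (w - w ^ 2) * av k M (fun S => (G S - r) ^ 2) ≤ (w - w ^ 2) *
      (((k : ℝ) * (k + 1) / (((V.card : ℝ) - (k + 1)) * (V.card - (k + 1) - 1))) *
        (r * (1 - r))) :=
    mul_le_mul_of_nonneg_left hvg (by nlinarith)
  have h4 := h2.trans (hcs.trans h3)
  have h5 : w * (w * (ℓ - r) ^ 2) ≤ w * ((1 - w) *
      (((k : ℝ) * (k + 1) / (((V.card : ℝ) - (k + 1)) * (V.card - (k + 1) - 1))) *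
        (r * (1 - r)))) := by
    nlinarith [h4]
  exact le_of_mul_le_mul_left h5 hw

/-- Coupling between `S ∋ i` and `S ∌ i`. -/
theorem coupling {k : ℕ} {V : Finset α} {i : α} (hi : i ∈ V) (hn : 2 * (k + 1) ≤ V.card)
    (x : α → ℝ) (hx : ∑ j ∈ V, x j = 0) (ψ : ℝ → ℝ) {a b : ℝ} (ha : 0 ≤ a)
    (hψ0 : ∀ t, 0 ≤ ψ t) (hψ : ∀ t, -(a * t) - b ≤ ψ t) :
    (a * x i - b) * av k (V.erase i) (bad x i) ≤
      av (k + 1) (V.erase i) (fun S => ψ (∑ j ∈ S, x j)) := by
  set M := V.erase i with hM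
  have hMc : M.card = V.card - 1 := by rw [hM, Finset.card_erase_of_mem hi]
  have hMr : (M.card : ℝ) = V.card - 1 := card_erase_cast hi
  have hk1 : (0 : ℝ) < k + 1 := by positivity
  have hnR : (2 * (k + 1) : ℝ) ≤ V.card := by exact_mod_cast hn
  have hN1 : (0 : ℝ) < (M.card : ℝ) := by rw [hMr]; linarith
  have hNk : (0 : ℝ) < (M.card : ℝ) - k := by rw [hMr]; linarith
  -- rewrite the average over `(k+1)`-sets as an average over pairs
  have e1 : av (k + 1) M (fun S => ψ (∑ j ∈ S, x j)) =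
      av (k + 1) M (fun S => ∑ j ∈ S,
        (fun j S' => (1 / (k + 1 : ℝ)) * ψ ((∑ l ∈ S', x l) + x j)) j (S.erase j)) := by
    refine av_congr fun S _ hc => ?_
    have : ∀ j ∈ S, (fun j S' => (1 / (k + 1 : ℝ)) * ψ ((∑ l ∈ S', x l) + x j)) j (S.erase j) =
        (1 / (k + 1 : ℝ)) * ψ (∑ l ∈ S, x l) := by
      intro j hj
      simp only
      rw [Finset.sum_erase_add _ _ hj]
    rw [Finset.sum_congr rfl this, Finset.sum_const, hc, nsmul_eq_mul]
    push_cast
    field_simp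
  rw [e1, av_peel (by omega) (fun j S' => (1 / (k + 1 : ℝ)) * ψ ((∑ l ∈ S', x l) + x j))]
  have e2 := av_avoid (k := k) (V := M) (by omega)
    (fun j S' => (1 / (k + 1 : ℝ)) * ψ ((∑ l ∈ S', x l) + x j))
  have e3 : (k + 1 : ℝ) / M.card * ∑ j ∈ M, av k (M.erase j)
      (fun S' => (1 / (k + 1 : ℝ)) * ψ ((∑ l ∈ S', x l) + x j)) =
      (k + 1) * ((∑ j ∈ M, av k (M.erase j)
      (fun S' => (1 / (k + 1 : ℝ)) * ψ ((∑ l ∈ S', x l) + x j))) / M.card) := by ring
  rw [e3, e2, ← mul_div_assoc, le_div_iff₀ hNk]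
  have e4 : (a * x i - b) * av k M (bad x i) * ((M.card : ℝ) - k) =
      av k M (fun S => ((a * x i - b) * ((M.card : ℝ) - k)) * bad x i S) := by
    rw [av_mul]; ring
  rw [e4, ← av_mul k M (k + 1 : ℝ)]
  refine av_mono fun S hS hc => ?_
  have e5 : (k + 1 : ℝ) * ∑ j ∈ M \ S, (1 / (k + 1 : ℝ)) * ψ ((∑ l ∈ S, x l) + x j) =
      ∑ j ∈ M \ S, ψ ((∑ l ∈ S, x l) + x j) := by
    rw [← Finset.mul_sum]; field_simp
  rw [e5]
  by_cases hs : x i + ∑ j ∈ S, x j < 0
  · have hb : bad x i S = 1 := by simp [bad, hs]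
    rw [hb, mul_one]
    have h1 : ∑ j ∈ M \ S, (-(a * ((∑ l ∈ S, x l) + x j)) - b) ≤
        ∑ j ∈ M \ S, ψ ((∑ l ∈ S, x l) + x j) :=
      Finset.sum_le_sum fun j _ => hψ _
    refine le_trans ?_ h1
    have hcard : ((M \ S).card : ℝ) = (M.card : ℝ) - k := by
      rw [Finset.card_sdiff_of_subset hS, hc, Nat.cast_sub (by omega)]
    have hsumMS : ∑ j ∈ M \ S, x j = - x i - ∑ j ∈ S, x j := by
      have a1 := Finset.sum_sdiff hS (f := x)
      have a2 := sum_erase_one hi x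
      linarith
    have h2 : ∑ j ∈ M \ S, (-(a * ((∑ l ∈ S, x l) + x j)) - b) =
        -(a * (((M.card : ℝ) - k) * (∑ l ∈ S, x l) + (- x i - ∑ j ∈ S, x j))) -
          ((M.card : ℝ) - k) * b := by
      rw [Finset.sum_sub_distrib, Finset.sum_neg_distrib, ← Finset.mul_sum,
        Finset.sum_add_distrib, Finset.sum_const, Finset.sum_const, nsmul_eq_mul, nsmul_eq_mul,
        hcard, hsumMS]
    rw [h2]
    have hNk1 : (1 : ℝ) ≤ (M.card : ℝ) - k := by rw [hMr]; linarith
    have h3 : 0 ≤ a * (((M.card : ℝ) - k) - 1) * (-(x i + ∑ j ∈ S, x j)) := by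
      refine mul_nonneg (mul_nonneg ha (by linarith)) (by linarith)
    nlinarith [h3]
  · have hb : bad x i S = 0 := by simp [bad, hs]
    rw [hb, mul_zero]
    exact Finset.sum_nonneg fun j _ => hψ0 _

/-- Second-moment bound in terms of the probability that a set containing `i` is bad. -/
theorem u_case {k : ℕ} {V : Finset α} {i : α} (hi : i ∈ V) (hk : 1 ≤ k)
    (hn : 2 * (k + 1) ≤ V.card) (x : α → ℝ) (hx : ∑ j ∈ V, x j = 0)
    (hQ : ∑ j ∈ V, x j ^ 2 = 1) (hξ : 0 < x i) {y : ℝ} (hy : 0 ≤ y) :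
    x i ^ 2 * (2 * y * (av k (V.erase i) (bad x i) - (k + 1) / ((V.card : ℝ) - 1)) -
        y ^ 2 * av (k + 1) (V.erase i) (nn x) + av k (V.erase i) (bad x i)) ≤
      ((k + 1 : ℝ) / ((V.card : ℝ) - 1)) * (1 - x i ^ 2) +
      (((k + 1 : ℝ) * k) / (((V.card : ℝ) - 1) * (V.card - 2))) * (2 * x i ^ 2 - 1) := by
  set M := V.erase i with hM
  have hMc : M.card = V.card - 1 := by rw [hM, Finset.card_erase_of_mem hi]
  have hMr : (M.card : ℝ) = V.card - 1 := card_erase_cast hi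
  set w := av k M (bad x i) with hw
  set r := av (k + 1) M (nn x) with hr
  set ξ := x i with hξdef
  have hsum : ∑ j ∈ M, x j = -ξ := by
    have := sum_erase_one hi x; linarith
  have hsq : ∑ j ∈ M, x j ^ 2 = 1 - ξ ^ 2 := by
    have := sum_erase_pow hi x 2; linarith
  have hm2 := mom2 (k := k + 1) (V := M) (by omega) (by omega) x
  have hm1 := mom1 (k := k + 1) (V := M) (by omega) (by omega) x
  have c1 := coupling hi hn x hx (fun t => max (-t) 0) (a := 1) (b := 0) (by norm_num)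
    (fun t => le_max_right _ _) (fun t => by simp)
  have c2 := coupling hi hn x hx (fun t => (max (-t) 0) ^ 2) (a := 2 * ξ) (b := ξ ^ 2)
    (by positivity) (fun t => sq_nonneg _)
    (fun t => by
      rcases le_total t 0 with h | h
      · rw [max_eq_left (by linarith)]; nlinarith [sq_nonneg (t + ξ)]
      · rw [max_eq_right (by linarith)]; nlinarith [mul_nonneg h hξ.le])
  rw [← hM, ← hw, ← hξdef] at c1 c2
  -- pointwise inequality
  have hpt : av (k + 1) M (fun S => (((2 * y * ξ) * ∑ j ∈ S, x j) + (-(y ^ 2 * ξ ^ 2)) * nn x S) +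
      ((2 * y * ξ) * max (-∑ j ∈ S, x j) 0 + (max (-∑ j ∈ S, x j) 0) ^ 2)) ≤
      av (k + 1) M (fun S => (∑ j ∈ S, x j) ^ 2) := by
    refine av_mono fun S _ _ => ?_
    unfold nn
    rcases lt_or_ge (∑ j ∈ S, x j) 0 with h | h
    · rw [max_eq_left (by linarith), if_neg (not_le.2 h)]
      nlinarith
    · rw [max_eq_right (by linarith), if_pos h]
      nlinarith [sq_nonneg ((∑ j ∈ S, x j) - y * ξ)]
  rw [av_add, av_add, av_add, av_mul, av_mul, av_mul, ← hr, hm1, hm2, hsum, hsq, hMr] at hpt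
  have hyx : 0 ≤ 2 * y * ξ := by positivity
  have c1' := mul_le_mul_of_nonneg_left c1 hyx
  have e1 : ((V.card : ℝ) - 1) - 1 = V.card - 2 := by ring
  rw [e1] at hpt
  push_cast at hpt
  have e2 : ((k : ℝ) + 1) * (((k : ℝ) + 1) - 1) = (k + 1) * k := by ring
  rw [e2] at hpt
  nlinarith [hpt, c1', c2]

/-- A large negative element. -/
theorem n_case {k : ℕ} {V : Finset α} {i : α} (hi : i ∈ V) (hk : 1 ≤ k)
    (hn : 2 * (k + 1) ≤ V.card) (x : α → ℝ) (hx : ∑ j ∈ V, x j = 0)
    (hQ : ∑ j ∈ V, x j ^ 2 = 1) (hξ : x i < 0) :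
    (((V.card : ℝ) - (k + 1)) / V.card) * (((k + 1 : ℝ) / ((V.card : ℝ) - 1)) ^ 2 * x i ^ 2) ≤
      (((k + 1 : ℝ) / ((V.card : ℝ) - 1)) * (1 - x i ^ 2) +
      (((k + 1 : ℝ) * k) / (((V.card : ℝ) - 1) * (V.card - 2))) * (2 * x i ^ 2 - 1)) *
      av (k + 1) V (nn x) := by
  set M := V.erase i with hM
  have hMc : M.card = V.card - 1 := by rw [hM, Finset.card_erase_of_mem hi]
  have hMr : (M.card : ℝ) = V.card - 1 := card_erase_cast hi
  set r := av (k + 1) M (nn x) with hr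
  have hsum : ∑ j ∈ M, x j = - x i := by
    have := sum_erase_one hi x; linarith
  have hsq : ∑ j ∈ M, x j ^ 2 = 1 - x i ^ 2 := by
    have := sum_erase_pow hi x 2; linarith
  have hnR : (2 * (k + 1) : ℝ) ≤ V.card := by exact_mod_cast hn
  have hk1 : (0 : ℝ) < k + 1 := by positivity
  have hm2 := mom2 (k := k + 1) (V := M) (by omega) (by omega) x
  have hm1 := mom1 (k := k + 1) (V := M) (by omega) (by omega) x
  rw [hsum, hMr] at hm1
  rw [hsum, hsq, hMr] at hm2
  have e1 : ((V.card : ℝ) - 1) - 1 = V.card - 2 := by ring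
  rw [e1] at hm2
  push_cast at hm1 hm2
  have e2 : ((k : ℝ) + 1) * (((k : ℝ) + 1) - 1) = (k + 1) * k := by ring
  rw [e2] at hm2
  have hcs := av_cs (k + 1) M (fun S => ∑ j ∈ S, x j) (nn x)
  simp only [nn_sq] at hcs
  rw [hm2, ← hr] at hcs
  have hge : ((k : ℝ) + 1) / (V.card - 1) * (- x i) ≤
      av (k + 1) M (fun S => (∑ j ∈ S, x j) * nn x S) := by
    rw [← hm1]
    refine av_mono fun S _ _ => ?_
    unfold nn
    split_ifs with h
    · simp
    · push Not at h; simp [h.le]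
  have hpos : 0 ≤ ((k : ℝ) + 1) / (V.card - 1) * (- x i) := by
    have : (0 : ℝ) < (V.card : ℝ) - 1 := by linarith
    have : 0 ≤ - x i := by linarith
    positivity
  have h1 := pow_le_pow_left₀ hpos hge 2
  have h2 := h1.trans hcs
  have hsp := phi_split hi (by omega : k + 1 ≤ V.card) x
  have hb : av k M (fun S => if x i + ∑ j ∈ S, x j < 0 then (1 : ℝ) else 0) ≤ 1 := by
    have := av_mono (k := k) (V := M)
      (F := fun S => if x i + ∑ j ∈ S, x j < 0 then (1 : ℝ) else 0) (G := fun _ => (1 : ℝ))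
      (fun S _ _ => by split_ifs <;> norm_num)
    rwa [av_const (by omega)] at this
  have hφ : (((V.card : ℝ) - (k + 1)) / V.card) * r ≤ av (k + 1) V (nn x) := by
    rw [hsp]
    have : 0 ≤ ((k + 1 : ℝ) / V.card) *
        (1 - av k M (fun S => if x i + ∑ j ∈ S, x j < 0 then (1 : ℝ) else 0)) := by
      refine mul_nonneg (by positivity) (by linarith)
    linarith
  set E := ((k + 1 : ℝ) / ((V.card : ℝ) - 1)) * (1 - x i ^ 2) +
      (((k + 1 : ℝ) * k) / (((V.card : ℝ) - 1) * (V.card - 2))) * (2 * x i ^ 2 - 1) with hE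
  have hE0 : 0 ≤ E := by
    have : 0 ≤ av (k + 1) M (fun S => (∑ j ∈ S, x j) ^ 2) := av_nonneg fun S _ _ => sq_nonneg _
    rw [hm2] at this
    have e3 : (- x i) ^ 2 - (1 - x i ^ 2) = 2 * x i ^ 2 - 1 := by ring
    rw [e3] at this
    exact this
  have h3 : (((k + 1 : ℝ) / ((V.card : ℝ) - 1)) ^ 2 * x i ^ 2) ≤ E * r := by
    have e3 : (- x i) ^ 2 - (1 - x i ^ 2) = 2 * x i ^ 2 - 1 := by ring
    rw [e3] at h2
    calc (((k + 1 : ℝ) / ((V.card : ℝ) - 1)) ^ 2 * x i ^ 2)
        = (((k : ℝ) + 1) / (V.card - 1) * (- x i)) ^ 2 := by ring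
      _ ≤ _ := h2
  have hc0 : 0 ≤ ((V.card : ℝ) - (k + 1)) / V.card := by
    apply div_nonneg (by linarith) (by positivity)
  calc (((V.card : ℝ) - (k + 1)) / V.card) *
        (((k + 1 : ℝ) / ((V.card : ℝ) - 1)) ^ 2 * x i ^ 2)
      ≤ (((V.card : ℝ) - (k + 1)) / V.card) * (E * r) := mul_le_mul_of_nonneg_left h3 hc0
    _ = E * ((((V.card : ℝ) - (k + 1)) / V.card) * r) := by ring
    _ ≤ E * av (k + 1) V (nn x) := mul_le_mul_of_nonneg_left hφ hE0

end Pool.Agent.H59.MMS
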