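import Pool.Agent.H59.MMS.LevelPoly

/-!
Numerical verification of the level lemma for `2 ≤ k ≤ 6`.
-/

set_option autoImplicit false
set_option linter.unusedSectionVars false

namespace Pool.Agent.H59.MMS

open Finset

variable {α : Type*} [DecidableEq α]

theorem smallA1 {n : ℕ} (h5 : 10 ≤ n) (h6 : n < 12)
    (hLB : LB α (1 + 1) (n - (1 + 1)) (2/15)) : LB α (1 + 1) n (1/7) := by
  interval_cases n <;>
  exact level_poly (k := 1) (ℓ := 2/15) (w0 := 27/50) (y := 4) (sp := 3/10) (sm := 149/200)
    (K := 2) (by norm_num) rfl rfl (by norm_num) (by norm_num) hLB (by norm_num) (by norm_num)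
    (by norm_num) (by norm_num) (by norm_num) (by norm_num) (by norm_num) (by norm_num)
    (by norm_num) (by norm_num) (by norm_num) (by norm_num) (by norm_num) (by norm_num) (by norm_num)

theorem smallB1 {n : ℕ} (h5 : 12 ≤ n) (h6 : n < 14)
    (hLB : LB α (1 + 1) (n - (1 + 1)) (1/7)) : LB α (1 + 1) n (1/7) := by
  interval_cases n <;>
  exact level_poly (k := 1) (ℓ := 1/7) (w0 := 27/50) (y := 4) (sp := 3/10) (sm := 149/200)
    (K := 2) (by norm_num) rfl rfl (by norm_num) (by norm_num) hLB (by norm_num) (by norm_num)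
    (by norm_num) (by norm_num) (by norm_num) (by norm_num) (by norm_num) (by norm_num)
    (by norm_num) (by norm_num) (by norm_num) (by norm_num) (by norm_num) (by norm_num) (by norm_num)

theorem smallC1 {n : ℕ} (h5 : 14 ≤ n) (h6 : n < 16)
    (hLB : LB α (1 + 1) (n - (1 + 1)) (1/7)) : LB α (1 + 1) n ((1 + 1 : ℝ) / n) := by
  interval_cases n <;>
  exact level_poly (k := 1) (ℓ := 1/7) (w0 := 27/50) (y := 4) (sp := 3/10) (sm := 149/200)
    (K := 2) (by norm_num) rfl rfl (by norm_num) (by norm_num) hLB (by norm_num) (by norm_num)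
    (by norm_num) (by norm_num) (by norm_num) (by norm_num) (by norm_num) (by norm_num)
    (by norm_num) (by norm_num) (by norm_num) (by norm_num) (by norm_num) (by norm_num) (by norm_num)

theorem smallA2 {n : ℕ} (h5 : 15 ≤ n) (h6 : n < 18)
    (hLB : LB α (2 + 1) (n - (2 + 1)) (2/15)) : LB α (2 + 1) n (1/7) := by
  interval_cases n <;>
  exact level_poly (k := 2) (ℓ := 2/15) (w0 := 27/50) (y := 4) (sp := 29/100) (sm := 149/200)
    (K := 3) (by norm_num) rfl rfl (by norm_num) (by norm_num) hLB (by norm_num) (by norm_num)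
    (by norm_num) (by norm_num) (by norm_num) (by norm_num) (by norm_num) (by norm_num)
    (by norm_num) (by norm_num) (by norm_num) (by norm_num) (by norm_num) (by norm_num) (by norm_num)

theorem smallB2 {n : ℕ} (h5 : 18 ≤ n) (h6 : n < 21)
    (hLB : LB α (2 + 1) (n - (2 + 1)) (1/7)) : LB α (2 + 1) n (1/7) := by
  interval_cases n <;>
  exact level_poly (k := 2) (ℓ := 1/7) (w0 := 27/50) (y := 4) (sp := 29/100) (sm := 149/200)
    (K := 3) (by norm_num) rfl rfl (by norm_num) (by norm_num) hLB (by norm_num) (by norm_num)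
    (by norm_num) (by norm_num) (by norm_num) (by norm_num) (by norm_num) (by norm_num)
    (by norm_num) (by norm_num) (by norm_num) (by norm_num) (by norm_num) (by norm_num) (by norm_num)

theorem smallC2 {n : ℕ} (h5 : 21 ≤ n) (h6 : n < 24)
    (hLB : LB α (2 + 1) (n - (2 + 1)) (1/7)) : LB α (2 + 1) n ((2 + 1 : ℝ) / n) := by
  interval_cases n <;>
  exact level_poly (k := 2) (ℓ := 1/7) (w0 := 27/50) (y := 4) (sp := 29/100) (sm := 149/200)
    (K := 3) (by norm_num) rfl rfl (by norm_num) (by norm_num) hLB (by norm_num) (by norm_num)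
    (by norm_num) (by norm_num) (by norm_num) (by norm_num) (by norm_num) (by norm_num)
    (by norm_num) (by norm_num) (by norm_num) (by norm_num) (by norm_num) (by norm_num) (by norm_num)

theorem smallA3 {n : ℕ} (h5 : 20 ≤ n) (h6 : n < 24)
    (hLB : LB α (3 + 1) (n - (3 + 1)) (2/15)) : LB α (3 + 1) n (1/7) := by
  interval_cases n <;>
  exact level_poly (k := 3) (ℓ := 2/15) (w0 := 27/50) (y := 4) (sp := 7/25) (sm := 149/200)
    (K := 4) (by norm_num) rfl rfl (by norm_num) (by norm_num) hLB (by norm_num) (by norm_num)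
    (by norm_num) (by norm_num) (by norm_num) (by norm_num) (by norm_num) (by norm_num)
    (by norm_num) (by norm_num) (by norm_num) (by norm_num) (by norm_num) (by norm_num) (by norm_num)

theorem smallB3 {n : ℕ} (h5 : 24 ≤ n) (h6 : n < 28)
    (hLB : LB α (3 + 1) (n - (3 + 1)) (1/7)) : LB α (3 + 1) n (1/7) := by
  interval_cases n <;>
  exact level_poly (k := 3) (ℓ := 1/7) (w0 := 27/50) (y := 4) (sp := 7/25) (sm := 149/200)
    (K := 4) (by norm_num) rfl rfl (by norm_num) (by norm_num) hLB (by norm_num) (by norm_num)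
    (by norm_num) (by norm_num) (by norm_num) (by norm_num) (by norm_num) (by norm_num)
    (by norm_num) (by norm_num) (by norm_num) (by norm_num) (by norm_num) (by norm_num) (by norm_num)

theorem smallC3 {n : ℕ} (h5 : 28 ≤ n) (h6 : n < 32)
    (hLB : LB α (3 + 1) (n - (3 + 1)) (1/7)) : LB α (3 + 1) n ((3 + 1 : ℝ) / n) := by
  interval_cases n <;>
  exact level_poly (k := 3) (ℓ := 1/7) (w0 := 27/50) (y := 4) (sp := 7/25) (sm := 149/200)
    (K := 4) (by norm_num) rfl rfl (by norm_num) (by norm_num) hLB (by norm_num) (by norm_num)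
    (by norm_num) (by norm_num) (by norm_num) (by norm_num) (by norm_num) (by norm_num)
    (by norm_num) (by norm_num) (by norm_num) (by norm_num) (by norm_num) (by norm_num) (by norm_num)

theorem smallA4 {n : ℕ} (h5 : 25 ≤ n) (h6 : n < 30)
    (hLB : LB α (4 + 1) (n - (4 + 1)) (2/15)) : LB α (4 + 1) n (1/7) := by
  interval_cases n <;>
  exact level_poly (k := 4) (ℓ := 2/15) (w0 := 27/50) (y := 4) (sp := 7/25) (sm := 149/200)
    (K := 5) (by norm_num) rfl rfl (by norm_num) (by norm_num) hLB (by norm_num) (by norm_num)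
    (by norm_num) (by norm_num) (by norm_num) (by norm_num) (by norm_num) (by norm_num)
    (by norm_num) (by norm_num) (by norm_num) (by norm_num) (by norm_num) (by norm_num) (by norm_num)

theorem smallB4 {n : ℕ} (h5 : 30 ≤ n) (h6 : n < 35)
    (hLB : LB α (4 + 1) (n - (4 + 1)) (1/7)) : LB α (4 + 1) n (1/7) := by
  interval_cases n <;>
  exact level_poly (k := 4) (ℓ := 1/7) (w0 := 27/50) (y := 4) (sp := 7/25) (sm := 149/200)
    (K := 5) (by norm_num) rfl rfl (by norm_num) (by norm_num) hLB (by norm_num) (by norm_num)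
    (by norm_num) (by norm_num) (by norm_num) (by norm_num) (by norm_num) (by norm_num)
    (by norm_num) (by norm_num) (by norm_num) (by norm_num) (by norm_num) (by norm_num) (by norm_num)

theorem smallC4 {n : ℕ} (h5 : 35 ≤ n) (h6 : n < 40)
    (hLB : LB α (4 + 1) (n - (4 + 1)) (1/7)) : LB α (4 + 1) n ((4 + 1 : ℝ) / n) := by
  interval_cases n <;>
  exact level_poly (k := 4) (ℓ := 1/7) (w0 := 27/50) (y := 4) (sp := 7/25) (sm := 149/200)
    (K := 5) (by norm_num) rfl rfl (by norm_num) (by norm_num) hLB (by norm_num) (by norm_num)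
    (by norm_num) (by norm_num) (by norm_num) (by norm_num) (by norm_num) (by norm_num)
    (by norm_num) (by norm_num) (by norm_num) (by norm_num) (by norm_num) (by norm_num) (by norm_num)

theorem smallA5 {n : ℕ} (h5 : 30 ≤ n) (h6 : n < 36)
    (hLB : LB α (5 + 1) (n - (5 + 1)) (2/15)) : LB α (5 + 1) n (1/7) := by
  interval_cases n <;>
  exact level_poly (k := 5) (ℓ := 2/15) (w0 := 27/50) (y := 4) (sp := 7/25) (sm := 149/200)
    (K := 6) (by norm_num) rfl rfl (by norm_num) (by norm_num) hLB (by norm_num) (by norm_num)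
    (by norm_num) (by norm_num) (by norm_num) (by norm_num) (by norm_num) (by norm_num)
    (by norm_num) (by norm_num) (by norm_num) (by norm_num) (by norm_num) (by norm_num) (by norm_num)

theorem smallB5 {n : ℕ} (h5 : 36 ≤ n) (h6 : n < 42)
    (hLB : LB α (5 + 1) (n - (5 + 1)) (1/7)) : LB α (5 + 1) n (1/7) := by
  interval_cases n <;>
  exact level_poly (k := 5) (ℓ := 1/7) (w0 := 27/50) (y := 4) (sp := 7/25) (sm := 149/200)
    (K := 6) (by norm_num) rfl rfl (by norm_num) (by norm_num) hLB (by norm_num) (by norm_num)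
    (by norm_num) (by norm_num) (by norm_num) (by norm_num) (by norm_num) (by norm_num)
    (by norm_num) (by norm_num) (by norm_num) (by norm_num) (by norm_num) (by norm_num) (by norm_num)

theorem smallC5 {n : ℕ} (h5 : 42 ≤ n) (h6 : n < 48)
    (hLB : LB α (5 + 1) (n - (5 + 1)) (1/7)) : LB α (5 + 1) n ((5 + 1 : ℝ) / n) := by
  interval_cases n <;>
  exact level_poly (k := 5) (ℓ := 1/7) (w0 := 27/50) (y := 4) (sp := 7/25) (sm := 149/200)
    (K := 6) (by norm_num) rfl rfl (by norm_num) (by norm_num) hLB (by norm_num) (by norm_num)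
    (by norm_num) (by norm_num) (by norm_num) (by norm_num) (by norm_num) (by norm_num)
    (by norm_num) (by norm_num) (by norm_num) (by norm_num) (by norm_num) (by norm_num) (by norm_num)

end Pool.Agent.H59.MMS
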