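import Pool.Agent.H59.MMS.LevelPoly

/-!
Numerical verification of the level lemma for `k ≥ 7` in the three windows
`[5k,6k]`, `[6k,7k]`, `[7k,8k]` (generated certificates).
-/

set_option autoImplicit false
set_option linter.unusedSectionVars false

namespace Pool.Agent.H59.MMS

open Finset

variable {α : Type*} [DecidableEq α]

theorem winA {k n : ℕ} (hk : 6 ≤ k) (h5 : 5 * (k + 1) ≤ n) (h6 : n ≤ 6 * (k + 1))
    (hLB : LB α (k + 1) (n - (k + 1)) (2/15)) : LB α (k + 1) n (1/7) := by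
  have h5R : (5 * (k + 1) : ℝ) ≤ n := by exact_mod_cast h5
  have h6R : (n : ℝ) ≤ 6 * (k + 1) := by exact_mod_cast h6
  have hkR : (6 : ℝ) ≤ k := by exact_mod_cast hk
  obtain ⟨u, hu⟩ : ∃ u : ℝ, u = 6 * (k + 1) - n := ⟨_, rfl⟩
  obtain ⟨v, hv⟩ : ∃ v : ℝ, v = n - 5 * (k + 1) := ⟨_, rfl⟩
  have hu0 : 0 ≤ u := by linarith
  have hv0 : 0 ≤ v := by linarith
  have hs : 0 ≤ u + v - 7 := by linarith
  refine level_poly (K := u + v) (N := 5 * u + 6 * v) (nt := (5 * u + 6 * v) * (1/7)) (ℓ := 2/15)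
    (w0 := 27/50) (y := 4) (sp := 27/100) (sm := 149/200) (by linarith) (by linarith)
    rfl (by omega) (by omega) hLB (by norm_num) ?_ (by norm_num) (by norm_num) (by norm_num)
    (by norm_num) ?_ ?_ ?_ ?_ ?_ ?_ ?_ ?_ ?_
  · -- hd
    have hP : (0 : ℝ) ≤ (2/7)*u + (1/7)*v := by positivity
    linarith [hP]
  · -- hA
    have hR : (0 : ℝ) ≤ (1429/1000000) := by positivity
    have hP : (0 : ℝ) < (5829991/21000000)*u + (5629991/21000000)*v + (10003/1000000) := by positivity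
    linarith [mul_nonneg hs hR, hP]
  · -- hB
    have hR : (0 : ℝ) ≤ (41/200000)*u + (41/200000)*v + (1429/1000000) := by positivity
    have hP : (0 : ℝ) < (156869/3062500)*u^3 + (725941/6125000)*u^2*v + (61786/765625)*u*v^2 + (16477/1225000)*v^3 + (3661179/49000000)*u^2 + (5341499/24500000)*u*v + (7019419/49000000)*v^2 + (3/500000)*u + (3/500000)*v + (10003/1000000) := by positivity
    linarith [mul_nonneg hs hR, hP]
  · -- hC
    have hR : (0 : ℝ) ≤ (6727/1000000)*u := by positivity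
    have hP : (0 : ℝ) ≤ (944473/1000000)*u^2 + (14091311/7000000)*u*v + (926/875)*v^2 + (23/7000000)*u + (464/4375)*v := by positivity
    linarith [mul_nonneg hs hR, hP]
  · -- hU0
    have hP : (0 : ℝ) ≤ 20*u + 29*v := by positivity
    linarith [hP]
  · -- hU
    have hR : (0 : ℝ) ≤ (581647/500000)*u^2 + (289949/100000)*u*v + (113539/62500)*v^2 + (1429/1000000) := by positivity
    have hP : (0 : ℝ) < (216771/3500000)*u^3 + (9701331/3500000)*u^2*v + (23675111/3500000)*u*v^2 + (742369/175000)*v^3 + (3/3500000)*u^2 + (1/350000)*u*v + (3/1750000)*v^2 + (15678077/7000000)*u + (18305393/7000000)*v + (10003/1000000) := by positivity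
    linarith [mul_nonneg hs hR, hP]
  · -- hN
    have hR : (0 : ℝ) ≤ (102041/1000000)*u + (122449/1000000)*v := by positivity
    have hP : (0 : ℝ) ≤ (154643/56000)*u^3 + (2339363/280000)*u^2*v + (320443/40000)*u*v^2 + (329577/140000)*v^3 + (2439469/3500000)*u^2 + (1640447/700000)*u*v + (12970507/7000000)*v^2 + (9/7000000)*u + (1/7000000)*v := by positivity
    linarith [mul_nonneg hs hR, hP]
  · -- hA4
    have hP : (0 : ℝ) ≤ 1*u^2 + 6*u*v + 6*v^2 + 5*u + 6*v := by positivity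
    linarith [hP]
  · -- hD1
    have hR : (0 : ℝ) ≤ (832517/1000000)*u^2 + (2168731/1000000)*u*v + (1415033/1000000)*v^2 := by positivity
    have hP : (0 : ℝ) ≤ (44393/70000)*u^4 + (70143/17500)*u^3*v + (286161/35000)*u^2*v^2 + (57501/8750)*u*v^3 + (60177/35000)*v^4 + (97208581/7000000)*u^3 + (46949733/875000)*u^2*v + (120752763/1750000)*u*v^2 + (206728369/7000000)*v^3 + (33/7000000)*u^2 + (19/7000000)*u*v + (17/7000000)*v^2 + (10533/7000)*u + (31599/17500)*v := by positivity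
    linarith [mul_nonneg hs hR, hP]
  · -- hD2
    have hR : (0 : ℝ) ≤ (83313/250000)*u^3 + (454013/1000000)*u^2*v + (832517/1000000)*u^2 + (2168731/1000000)*u*v + (1415033/1000000)*v^2 := by positivity
    have hP : (0 : ℝ) ≤ (16335259/1750000)*u^4 + (27821977/700000)*u^3*v + (26875949/437500)*u^2*v^2 + (2817447/70000)*u*v^3 + (1285143/140000)*v^4 + (29/7000000)*u^3 + (13/3500000)*u^2*v + (20724227/7000000)*u*v^2 + (28748119/7000000)*v^3 + (33/7000000)*u^2 + (19/7000000)*u*v + (17/7000000)*v^2 + (10533/7000)*u + (31599/17500)*v := by positivity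
    linarith [mul_nonneg hs hR, hP]

theorem winB {k n : ℕ} (hk : 6 ≤ k) (h5 : 6 * (k + 1) ≤ n) (h6 : n ≤ 7 * (k + 1))
    (hLB : LB α (k + 1) (n - (k + 1)) (1/7)) : LB α (k + 1) n (1/7) := by
  have h5R : (6 * (k + 1) : ℝ) ≤ n := by exact_mod_cast h5
  have h6R : (n : ℝ) ≤ 7 * (k + 1) := by exact_mod_cast h6
  have hkR : (6 : ℝ) ≤ k := by exact_mod_cast hk
  obtain ⟨u, hu⟩ : ∃ u : ℝ, u = 7 * (k + 1) - n := ⟨_, rfl⟩
  obtain ⟨v, hv⟩ : ∃ v : ℝ, v = n - 6 * (k + 1) := ⟨_, rfl⟩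
  have hu0 : 0 ≤ u := by linarith
  have hv0 : 0 ≤ v := by linarith
  have hs : 0 ≤ u + v - 7 := by linarith
  refine level_poly (K := u + v) (N := 6 * u + 7 * v) (nt := (6 * u + 7 * v) * (1/7)) (ℓ := 1/7)
    (w0 := 27/50) (y := 4) (sp := 27/100) (sm := 149/200) (by linarith) (by linarith)
    rfl (by omega) (by omega) hLB (by norm_num) ?_ (by norm_num) (by norm_num) (by norm_num)
    (by norm_num) ?_ ?_ ?_ ?_ ?_ ?_ ?_ ?_ ?_
  · -- hd
    have hP : (0 : ℝ) ≤ (1/7)*u := by positivity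
    linarith [hP]
  · -- hA
    have hR : (0 : ℝ) ≤ (1429/1000000) := by positivity
    have hP : (0 : ℝ) < (2209997/7000000)*u + (2209997/7000000)*v + (10003/1000000) := by positivity
    linarith [mul_nonneg hs hR, hP]
  · -- hB
    have hR : (0 : ℝ) ≤ (41/200000)*u + (41/200000)*v + (1429/1000000) := by positivity
    have hP : (0 : ℝ) < (108877/1225000)*u^3 + (781661/3062500)*u^2*v + (1493489/6125000)*u*v^2 + (59319/765625)*v^3 + (6280219/49000000)*u^2 + (7890219/24500000)*u*v + (9500219/49000000)*v^2 + (3/500000)*u + (3/500000)*v + (10003/1000000) := by positivity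
    linarith [mul_nonneg hs hR, hP]
  · -- hC
    have hP : (0 : ℝ) ≤ (1151/875)*u^2 + (24767/8750)*u*v + (13257/8750)*v^2 + (239/4375)*u + (864/4375)*v := by positivity
    linarith [hP]
  · -- hU0
    have hP : (0 : ℝ) ≤ 29*u + 38*v := by positivity
    linarith [hP]
  · -- hU
    have hR : (0 : ℝ) ≤ (113539/62500)*u^2 + (2183503/500000)*u*v + (263081/100000)*v^2 + (1429/1000000) := by positivity
    have hP : (0 : ℝ) < (742369/175000)*u^3 + (9344167/500000)*u^2*v + (13309921/500000)*u*v^2 + (6180641/500000)*v^3 + (3/1750000)*u^2 + (1/250000)*u*v + (1/500000)*v^2 + (18305393/7000000)*u + (2990387/1000000)*v + (10003/1000000) := by positivity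
    linarith [mul_nonneg hs hR, hP]
  · -- hN
    have hR : (0 : ℝ) ≤ (122449/1000000)*u + (71429/500000)*v := by positivity
    have hP : (0 : ℝ) ≤ (329577/140000)*u^3 + (1711823/280000)*u^2*v + (182401/40000)*u*v^2 + (29477/40000)*v^3 + (12970507/7000000)*u^2 + (35477551/7000000)*u*v + (3421717/1000000)*v^2 + (1/7000000)*u + (3/500000)*v := by positivity
    linarith [mul_nonneg hs hR, hP]
  · -- hA4
    have hP : (0 : ℝ) ≤ 6*u^2 + 18*u*v + 13*v^2 + 6*u + 7*v := by positivity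
    linarith [hP]
  · -- hD1
    have hR : (0 : ℝ) ≤ (1415033/1000000)*u^2 + (3491401/1000000)*u*v + (1077593/500000)*v^2 := by positivity
    have hP : (0 : ℝ) ≤ (60177/35000)*u^4 + (8979/1250)*u^3*v + (10011/1000)*u^2*v^2 + (12141/2500)*u*v^3 + (2591/10000)*v^4 + (206728369/7000000)*u^3 + (54097083/500000)*u^2*v + (132042013/1000000)*u*v^2 + (26840707/500000)*v^3 + (17/7000000)*u^2 + (7/1000000)*u*v + (1/500000)*v^2 + (31599/17500)*u + (10533/5000)*v := by positivity
    linarith [mul_nonneg hs hR, hP]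
  · -- hD2
    have hR : (0 : ℝ) ≤ (1415033/1000000)*u^2 + (3491401/1000000)*u*v + (1077593/500000)*v^2 := by positivity
    have hP : (0 : ℝ) ≤ (1285143/140000)*u^4 + (531/16)*u^3*v + (1627981/40000)*u^2*v^2 + (142097/8000)*u*v^3 + (20407/20000)*v^4 + (28748119/7000000)*u^3 + (21680641/1000000)*u^2*v + (8565497/250000)*u*v^2 + (4247291/250000)*v^3 + (17/7000000)*u^2 + (7/1000000)*u*v + (1/500000)*v^2 + (31599/17500)*u + (10533/5000)*v := by positivity
    linarith [mul_nonneg hs hR, hP]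

theorem winC {k n : ℕ} (hk : 6 ≤ k) (h5 : 7 * (k + 1) ≤ n) (h6 : n ≤ 8 * (k + 1))
    (hLB : LB α (k + 1) (n - (k + 1)) (1/7)) : LB α (k + 1) n ((k + 1 : ℝ) / n) := by
  have h5R : (7 * (k + 1) : ℝ) ≤ n := by exact_mod_cast h5
  have h6R : (n : ℝ) ≤ 8 * (k + 1) := by exact_mod_cast h6
  have hkR : (6 : ℝ) ≤ k := by exact_mod_cast hk
  obtain ⟨u, hu⟩ : ∃ u : ℝ, u = 8 * (k + 1) - n := ⟨_, rfl⟩
  obtain ⟨v, hv⟩ : ∃ v : ℝ, v = n - 7 * (k + 1) := ⟨_, rfl⟩
  have hu0 : 0 ≤ u := by linarith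
  have hv0 : 0 ≤ v := by linarith
  have hs : 0 ≤ u + v - 7 := by linarith
  have hn0 : (0 : ℝ) < n := by linarith
  refine level_poly (K := u + v) (N := 7 * u + 8 * v) (nt := u + v) (ℓ := 1/7)
    (w0 := 27/50) (y := 4) (sp := 27/100) (sm := 149/200) (by linarith) (by linarith)
    (by rw [show (7 * u + 8 * v : ℝ) = n by linarith]; rw [mul_div_cancel₀ _ hn0.ne']; linarith) (by omega) (by omega) hLB (by rw [div_le_one hn0]; linarith) ?_ (by norm_num) (by norm_num) (by norm_num)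
    (by norm_num) ?_ ?_ ?_ ?_ ?_ ?_ ?_ ?_ ?_
  · -- hd
    linarith
  · -- hA
    have hR : (0 : ℝ) ≤ (1429/1000000) := by positivity
    have hP : (0 : ℝ) < (2209997/7000000)*u + (458571/1000000)*v + (10003/1000000) := by positivity
    linarith [mul_nonneg hs hR, hP]
  · -- hB
    have hR : (0 : ℝ) ≤ (41/200000)*u + (41/200000)*v + (1429/1000000) := by positivity
    have hP : (0 : ℝ) < (59319/765625)*u^3 + (507789/875000)*u^2*v + (13041/12500)*u*v^2 + (68931/125000)*v^3 + (9500219/49000000)*u^2 + (1185917/3500000)*u*v + (133931/1000000)*v^2 + (3/500000)*u + (3/500000)*v + (10003/1000000) := by positivity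
    linarith [mul_nonneg hs hR, hP]
  · -- hC
    have hP : (0 : ℝ) ≤ (13257/8750)*u^2 + (5373/1250)*u*v + (1836/625)*v^2 + (864/4375)*u + (27/625)*v := by positivity
    linarith [hP]
  · -- hU0
    have hP : (0 : ℝ) ≤ 38*u + 47*v := by positivity
    linarith [hP]
  · -- hU
    have hR : (0 : ℝ) ≤ (263081/100000)*u^2 + (166403/25000)*u*v + (83543/20000)*v^2 + (1429/1000000) := by positivity
    have hP : (0 : ℝ) < (6180641/500000)*u^3 + (13803191/250000)*u^2*v + (39067783/500000)*u*v^2 + (17819189/500000)*v^3 + (1/500000)*u^2 + (3/500000)*u*v + (1/500000)*v^2 + (2990387/1000000)*u + (147959/40000)*v + (10003/1000000) := by positivity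
    linarith [mul_nonneg hs hR, hP]
  · -- hN
    have hR : (0 : ℝ) ≤ (71429/500000)*u + (71429/500000)*v := by positivity
    have hP : (0 : ℝ) ≤ (29477/40000)*u^3 + (1929/625)*u^2*v + (162883/40000)*u*v^2 + (8613/5000)*v^3 + (3421717/1000000)*u^2 + (7178359/1000000)*u*v + (1878321/500000)*v^2 + (3/500000)*u + (3/500000)*v := by positivity
    linarith [mul_nonneg hs hR, hP]
  · -- hA4
    have hP : (0 : ℝ) ≤ 13*u^2 + 34*u*v + 22*v^2 + 7*u + 8*v := by positivity
    linarith [hP]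
  · -- hD1
    have hR : (0 : ℝ) ≤ (1077593/500000)*u^2 + (915523/200000)*u*v + (2422429/1000000)*v^2 := by positivity
    have hP : (0 : ℝ) ≤ (2591/10000)*u^4 + (144203/10000)*u^3*v + (230379/5000)*u^2*v^2 + (31429/625)*u*v^3 + (91859/5000)*v^4 + (26840707/500000)*u^3 + (175851999/1000000)*u^2*v + (47919939/250000)*u*v^2 + (69509171/1000000)*v^3 + (1/500000)*u^2 + (1/200000)*u*v + (3/1000000)*v^2 + (10533/5000)*u + (10533/5000)*v := by positivity
    linarith [mul_nonneg hs hR, hP]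
  · -- hD2
    have hR : (0 : ℝ) ≤ (1077593/500000)*u^2 + (915523/200000)*u*v + (2422429/1000000)*v^2 := by positivity
    have hP : (0 : ℝ) ≤ (20407/20000)*u^4 + (304183/40000)*u^3*v + (703999/40000)*u^2*v^2 + (6611/400)*u*v^3 + (22047/4000)*v^4 + (4247291/250000)*u^3 + (13369631/250000)*u^2*v + (55979331/1000000)*u*v^2 + (19489971/1000000)*v^3 + (1/500000)*u^2 + (1/200000)*u*v + (3/1000000)*v^2 + (10533/5000)*u + (10533/5000)*v := by positivity
    linarith [mul_nonneg hs hR, hP]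

end Pool.Agent.H59.MMS
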