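import Pool.Agent.H59.MMS.Base
import Pool.Agent.H59.MMS.Windows
import Pool.Agent.H59.MMS.Small

/-!
The induction on `n` giving the Manickam-Miklos-Singhi bound for all `n ≥ 7k`.
-/

set_option autoImplicit false
set_option linter.unusedSectionVars false

namespace Pool.Agent.H59.MMS

open Finset

variable {α : Type*} [DecidableEq α]

theorem lb45 {k n : ℕ} (hk : 1 ≤ k) (h4 : 4 * (k + 1) ≤ n) (h5 : n < 5 * (k + 1)) :
    LB α (k + 1) n (2 / 15) := by
  have h := LB.step (α := α) (k := k + 1) (n := n) (ℓ := 2 / 13) (by omega) (by norm_num)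
    (LB.base hk (by omega) (by omega))
  exact h.mono (by norm_num)

theorem lb56 {k n : ℕ} (hk : 1 ≤ k) (h5 : 5 * (k + 1) ≤ n) (h6 : n < 6 * (k + 1)) :
    LB α (k + 1) n (1 / 7) := by
  have h := lb45 (α := α) hk (n := n - (k + 1)) (by omega) (by omega)
  rcases Nat.lt_or_ge k 6 with hlt | hge
  · interval_cases k
    · exact smallA1 h5 h6 h
    · exact smallA2 h5 h6 h
    · exact smallA3 h5 h6 h
    · exact smallA4 h5 h6 h
    · exact smallA5 h5 h6 h
  · exact winA hge h5 h6.le h

theorem lb67 {k n : ℕ} (hk : 1 ≤ k) (h6 : 6 * (k + 1) ≤ n) (h7 : n < 7 * (k + 1)) :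
    LB α (k + 1) n (1 / 7) := by
  have h := lb56 (α := α) hk (n := n - (k + 1)) (by omega) (by omega)
  rcases Nat.lt_or_ge k 6 with hlt | hge
  · interval_cases k
    · exact smallB1 h6 h7 h
    · exact smallB2 h6 h7 h
    · exact smallB3 h6 h7 h
    · exact smallB4 h6 h7 h
    · exact smallB5 h6 h7 h
  · exact winB hge h6 h7.le h

theorem lb78 {k n : ℕ} (hk : 1 ≤ k) (h7 : 7 * (k + 1) ≤ n) (h8 : n < 8 * (k + 1)) :
    LB α (k + 1) n ((k + 1 : ℝ) / n) := by
  have h := lb67 (α := α) hk (n := n - (k + 1)) (by omega) (by omega)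
  rcases Nat.lt_or_ge k 6 with hlt | hge
  · interval_cases k
    · exact_mod_cast smallC1 h7 h8 h
    · exact_mod_cast smallC2 h7 h8 h
    · exact_mod_cast smallC3 h7 h8 h
    · exact_mod_cast smallC4 h7 h8 h
    · exact_mod_cast smallC5 h7 h8 h
  · exact winC hge h7 h8.le h

theorem lb_all {k : ℕ} (hk : 1 ≤ k) : ∀ n : ℕ, 7 * (k + 1) ≤ n →
    LB α (k + 1) n ((k + 1 : ℝ) / n) := by
  intro n
  induction n using Nat.strong_induction_on with
  | _ n ih =>
    intro hn
    rcases Nat.lt_or_ge n (8 * (k + 1)) with h8 | h8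
    · exact lb78 hk hn h8
    · refine LB.mms_step (by omega) ?_
      have := ih (n - (k + 1)) (by omega) (by omega)
      rw [Nat.cast_sub (by omega)] at this
      push_cast at this
      exact this

theorem lb_one : ∀ n : ℕ, 1 ≤ n → LB α 1 n ((1 : ℝ) / n) := by
  intro n hn
  induction n, hn using Nat.le_induction with
  | base =>
    intro V x hV hx
    obtain ⟨a, rfl⟩ := Finset.card_eq_one.1 hV
    rw [Finset.sum_singleton] at hx
    unfold av
    rw [Finset.powersetCard_one, Finset.map_singleton, Finset.sum_singleton]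
    simp [nn, hx]
  | succ n hn ih =>
    have := LB.mms_step (α := α) (k := 0) (n := n + 1) (by omega)
      (by simpa using ih)
    simpa using this

/-- Counting form. -/
theorem count_of_lb {n k : ℕ} (hk : 0 < k) (hkn : k ≤ n) (h : LB α k n ((k : ℝ) / n))
    (V : Finset α) (x : α → ℝ) (hV : V.card = n) (hx : 0 ≤ ∑ i ∈ V, x i) :
    (n - 1).choose (k - 1) ≤
      ((V.powersetCard k).filter (fun B => 0 ≤ ∑ i ∈ B, x i)).card := by
  obtain ⟨m, rfl⟩ : ∃ m, k = m + 1 := ⟨k - 1, by omega⟩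
  have h1 := h V x hV hx
  unfold av nn at h1
  rw [Finset.sum_ite, Finset.sum_const, Finset.sum_const_zero, add_zero, nsmul_eq_mul, mul_one,
    hV] at h1
  have hc : (0 : ℝ) < (n.choose (m + 1) : ℝ) := by exact_mod_cast Nat.choose_pos hkn
  rw [le_div_iff₀ hc] at h1
  have e := choose_peel hkn
  have hn0 : (0 : ℝ) < n := by
    have : 0 < n := by omega
    exact_mod_cast this
  have e2 : ((m + 1 : ℕ) : ℝ) / n * (n.choose (m + 1)) = ((n - 1).choose m : ℝ) := by
    rw [div_mul_eq_mul_div, e]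
    field_simp
  rw [e2] at h1
  simp only [Nat.add_sub_cancel]
  exact_mod_cast h1

end Pool.Agent.H59.MMS
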