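import Pool.Agent.H59.MMS.Cases

/-!
The level lemma: from a lower bound at `n - k` to a lower bound at `n`, under explicit numerical
conditions.
-/

set_option autoImplicit false
set_option linter.unusedSectionVars false

namespace Pool.Agent.H59.MMS

open Finset

variable {α : Type*} [DecidableEq α]

/-- `a0`: variance coefficient for `K`-subsets of an `(N-1)`-set, minus mean-square part. -/
noncomputable def a0 (K N : ℝ) : ℝ := K / (N - 1) - K * (K - 1) / ((N - 1) * (N - 2))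
noncomputable def a1 (K N : ℝ) : ℝ := 2 * (K * (K - 1) / ((N - 1) * (N - 2))) - K / (N - 1)

theorem level {k n : ℕ} {ℓ τ w0 y sp sm : ℝ} (hk : 1 ≤ k) (hn : 2 * (k + 1) ≤ n)
    (hLB : LB α (k + 1) (n - (k + 1)) ℓ) (hτ : τ ≤ 1)
    (hδ : n * τ ≤ k + 1) (hw0 : 0 < w0) (hy : 0 ≤ y)
    (hsp0 : 0 < sp) (hsm0 : 0 < sm)
    -- lower bound on `w`
    (hA : 0 < ℓ - ((k + 1) * w0 - (k + 1) + n * τ) / ((n : ℝ) - (k + 1)))
    (hB : ((k : ℝ) * (k + 1) / (((n : ℝ) - (k + 1)) * (n - (k + 1) - 1))) *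
        ((((k + 1) * w0 - (k + 1) + n * τ) / ((n : ℝ) - (k + 1))) / w0) * (1 - w0) <
        (ℓ - ((k + 1) * w0 - (k + 1) + n * τ) / ((n : ℝ) - (k + 1))) ^ 2)
    (hC : ((k : ℝ) * (k + 1) / (((n : ℝ) - (k + 1)) * (n - (k + 1) - 1))) *
        ((((k + 1) * w0 - (k + 1) + n * τ) / ((n : ℝ) - (k + 1))) / w0) ≤
        2 * ((k + 1) / ((n : ℝ) - (k + 1))) *
          (ℓ - ((k + 1) * w0 - (k + 1) + n * τ) / ((n : ℝ) - (k + 1))))
    -- large positive element
    (hU0 : 0 ≤ 1 + 2 * y - y ^ 2 * ((k + 1) / ((n : ℝ) - (k + 1))))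
    (hU : a0 (k + 1) n < sp ^ 2 * (w0 * (1 + 2 * y - y ^ 2 * ((k + 1) / ((n : ℝ) - (k + 1)))) -
        2 * y * ((k + 1) / ((n : ℝ) - 1)) +
        y ^ 2 * (((k + 1) - n * τ) / ((n : ℝ) - (k + 1))) - a1 (k + 1) n))
    -- large negative element
    (hNc : τ * a0 (k + 1) n ≤ sm ^ 2 * ((((n : ℝ) - (k + 1)) / n) * ((k + 1 : ℝ) / ((n : ℝ) - 1)) ^ 2
        - τ * a1 (k + 1) n))
    -- no large element
    (hA4 : 0 ≤ A4 (k + 1) n)
    (hD1 : 3511 / 10000 * τ ≤ 8319 / 10000 * A2 (k + 1) n - A22 (k + 1) n -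
      (A4 (k + 1) n * sp ^ 2 + 18 / 100 * A3 (k + 1) n * sp))
    (hD2 : 3511 / 10000 * τ ≤ 8319 / 10000 * A2 (k + 1) n - A22 (k + 1) n -
      (A4 (k + 1) n * sm ^ 2 - 18 / 100 * A3 (k + 1) n * sm)) :
    LB α (k + 1) n τ := by
  refine LB.of_normalized (by omega) (by omega) hτ ?_
  intro V x hV hx hQ
  by_contra hcon
  push Not at hcon
  have hVne : V.Nonempty := Finset.card_pos.1 (by omega)
  obtain ⟨i, hi, himax⟩ := V.exists_max_image x hVne
  obtain ⟨j, hj, hjmin⟩ := V.exists_min_image x hVne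
  have hnR : (2 * (k + 1) : ℝ) ≤ n := by exact_mod_cast hn
  have hkR : (1 : ℝ) ≤ k := by exact_mod_cast hk
  have hn0 : (0 : ℝ) < n := by linarith
  have hnK : (0 : ℝ) < (n : ℝ) - (k + 1) := by linarith
  have hn1 : (0 : ℝ) < (n : ℝ) - 1 := by linarith
  have hn2 : (0 : ℝ) < (n : ℝ) - 2 := by linarith
  -- the maximum is positive
  have hipos : 0 < x i := by
    by_contra hneg
    push Not at hneg
    have hall : ∀ l ∈ V, x l ≤ 0 := fun l hl => (himax l hl).trans hneg
    have hz : ∀ l ∈ V, x l = 0 := by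
      have := (Finset.sum_eq_zero_iff_of_nonpos hall).1 hx
      exact this
    have : ∑ l ∈ V, x l ^ 2 = 0 := Finset.sum_eq_zero fun l hl => by rw [hz l hl]; ring
    rw [this] at hQ
    exact zero_ne_one hQ
  by_cases hcase1 : sp ≤ x i
  · -- large positive element
    set w := av k (V.erase i) (bad x i) with hw
    set r := av (k + 1) (V.erase i) (nn x) with hr
    have hMc : (V.erase i).card = n - 1 := by rw [Finset.card_erase_of_mem hi, hV]
    have hsplit : av (k + 1) V (nn x) = (((n : ℝ) - (k + 1)) / n) * r +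
        ((k + 1 : ℝ) / n) * (1 - w) := by
      have := phi_split hi (by omega : k + 1 ≤ V.card) x
      rw [hV] at this
      exact this
    have hr0 : 0 ≤ r := av_nonneg fun S _ _ => nn_nonneg x S
    have hw_nonneg : 0 ≤ w := av_nonneg fun S _ _ => bad_nonneg x i S
    have hw1 : w ≤ 1 := by
      have := av_mono (k := k) (V := V.erase i) (F := bad x i) (G := fun _ => (1 : ℝ))
        (fun S _ _ => by unfold bad; split_ifs <;> norm_num)
      rwa [av_const (by omega)] at this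
    have hr1 : r ≤ 1 := by
      have := av_mono (k := k + 1) (V := V.erase i) (F := nn x) (G := fun _ => (1 : ℝ))
        (fun S _ _ => nn_le_one x S)
      rwa [av_const (by omega)] at this
    -- bound on r
    have hrlt : ((n : ℝ) - (k + 1)) * r < (k + 1) * w - (k + 1) + n * τ := by
      rw [hsplit] at hcon
      have h1 : n * ((((n : ℝ) - (k + 1)) / n) * r + ((k + 1 : ℝ) / n) * (1 - w)) < n * τ :=
        mul_lt_mul_of_pos_left hcon hn0
      have h2 : n * ((((n : ℝ) - (k + 1)) / n) * r + ((k + 1 : ℝ) / n) * (1 - w)) =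
          ((n : ℝ) - (k + 1)) * r + (k + 1) * (1 - w) := by field_simp
      rw [h2] at h1
      linarith
    have hrle : r ≤ ((k + 1) * w - (k + 1) + n * τ) / ((n : ℝ) - (k + 1)) := by
      rw [le_div_iff₀ hnK]; linarith
    have hwpos : 0 < w := by
      by_contra hneg
      have : w = 0 := le_antisymm (not_lt.1 hneg) hw_nonneg
      rw [this] at hrlt
      have : 0 ≤ ((n : ℝ) - (k + 1)) * r := by positivity
      linarith
    -- lower bound on w
    set R0 := ((k + 1) * w0 - (k + 1) + n * τ) / ((n : ℝ) - (k + 1)) with hR0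
    set L2 : ℝ := (k : ℝ) * (k + 1) / (((n : ℝ) - (k + 1)) * (n - (k + 1) - 1)) with hL2
    have hL2nn : 0 ≤ L2 := by
      rw [hL2]; apply div_nonneg (by positivity)
      apply mul_nonneg hnK.le; linarith
    have hwlow : w0 < w := by
      by_contra hle
      push Not at hle
      have hR : ((k + 1) * w - (k + 1) + n * τ) / ((n : ℝ) - (k + 1)) =
          R0 - ((k + 1) / ((n : ℝ) - (k + 1))) * (w0 - w) := by
        rw [hR0]; field_simp; ring
      have hκ : 0 ≤ (k + 1 : ℝ) / ((n : ℝ) - (k + 1)) := by positivity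
      have hd : 0 ≤ w0 - w := by linarith
      have hrle2 : r ≤ R0 - ((k + 1) / ((n : ℝ) - (k + 1))) * (w0 - w) := hR ▸ hrle
      have hrl : r ≤ ℓ := by
        have := mul_nonneg hκ hd
        linarith
      have hmix := mix_ineq hi (by omega) (hV ▸ hLB) x hx hwpos hrl
      rw [← hw, ← hr, hV, ← hL2] at hmix
      -- r ≤ w * R0 / w0
      have hrw : r ≤ w * (R0 / w0) := by
        have h1 : ((k + 1) * w - (k + 1) + n * τ) ≤
            w * (((k + 1) * w0 - (k + 1) + n * τ) / w0) := by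
          rw [mul_div_assoc', le_div_iff₀ hw0]
          nlinarith
        have h2 : ((k + 1) * w - (k + 1) + n * τ) / ((n : ℝ) - (k + 1)) ≤
            (w * (((k + 1) * w0 - (k + 1) + n * τ) / w0)) / ((n : ℝ) - (k + 1)) :=
          div_le_div_of_nonneg_right h1 hnK.le
        refine hrle.trans (h2.trans (le_of_eq ?_))
        rw [hR0]; field_simp
      have h3 : (1 - w) * (L2 * (r * (1 - r))) ≤ w * ((1 - w) * (L2 * (R0 / w0))) := by
        have e1 : r * (1 - r) ≤ w * (R0 / w0) := by nlinarith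
        have e2 : (1 - w) * (L2 * (r * (1 - r))) ≤ (1 - w) * (L2 * (w * (R0 / w0))) :=
          mul_le_mul_of_nonneg_left (mul_le_mul_of_nonneg_left e1 hL2nn) (by linarith)
        refine e2.trans (le_of_eq (by ring))
      have h4 : (ℓ - r) ^ 2 ≤ (1 - w) * (L2 * (R0 / w0)) :=
        le_of_mul_le_mul_left (hmix.trans h3) hwpos
      have h5 : (ℓ - R0 + ((k + 1) / ((n : ℝ) - (k + 1))) * (w0 - w)) ^ 2 ≤ (ℓ - r) ^ 2 := by
        refine pow_le_pow_left₀ ?_ (by linarith) 2
        have := mul_nonneg hκ hd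
        linarith
      have h6 := h5.trans h4
      set κ := (k + 1 : ℝ) / ((n : ℝ) - (k + 1)) with hκdef
      have h7 : L2 * (R0 / w0) * (w0 - w) ≤ 2 * κ * (ℓ - R0) * (w0 - w) :=
        mul_le_mul_of_nonneg_right hC hd
      nlinarith [sq_nonneg (κ * (w0 - w))]
    -- second moment contradiction
    have hu := u_case hi hk (by omega) x hx hQ hipos hy
    rw [← hw, ← hr, hV] at hu
    set κ := (k + 1 : ℝ) / ((n : ℝ) - (k + 1)) with hκdef
    have hrle3 : r ≤ κ * w - ((k + 1) - n * τ) / ((n : ℝ) - (k + 1)) := by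
      refine hrle.trans (le_of_eq ?_)
      rw [hκdef]; field_simp; ring
    have hlow : w0 * (1 + 2 * y - y ^ 2 * κ) - 2 * y * ((k + 1) / ((n : ℝ) - 1)) +
        y ^ 2 * (((k + 1) - n * τ) / ((n : ℝ) - (k + 1))) ≤
        2 * y * (w - (k + 1) / ((n : ℝ) - 1)) - y ^ 2 * r + w := by
      have e1 : y ^ 2 * r ≤ y ^ 2 * (κ * w - ((k + 1) - n * τ) / ((n : ℝ) - (k + 1))) :=
        mul_le_mul_of_nonneg_left hrle3 (sq_nonneg y)
      have e2 : w0 * (1 + 2 * y - y ^ 2 * κ) ≤ w * (1 + 2 * y - y ^ 2 * κ) :=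
        mul_le_mul_of_nonneg_right hwlow.le hU0
      nlinarith
    have hE : ((k + 1 : ℝ) / ((n : ℝ) - 1)) * (1 - x i ^ 2) +
      (((k + 1 : ℝ) * k) / (((n : ℝ) - 1) * (n - 2))) * (2 * x i ^ 2 - 1) =
      a0 (k + 1) n + a1 (k + 1) n * x i ^ 2 := by
      unfold a0 a1
      rw [show ((k : ℝ) + 1 - 1) = k by ring]
      ring
    rw [hE] at hu
    set H := w0 * (1 + 2 * y - y ^ 2 * κ) - 2 * y * ((k + 1) / ((n : ℝ) - 1)) +
        y ^ 2 * (((k + 1) - n * τ) / ((n : ℝ) - (k + 1))) with hH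
    have ha0 : 0 ≤ a0 (k + 1) n := by
      unfold a0
      have : (k + 1 : ℝ) / ((n : ℝ) - 1) - (k + 1) * ((k + 1) - 1) / (((n : ℝ) - 1) * (n - 2)) =
          (k + 1) * ((n : ℝ) - 1 - (k + 1)) / (((n : ℝ) - 1) * (n - 2)) := by
        field_simp; ring
      rw [this]
      apply div_nonneg _ (by positivity)
      apply mul_nonneg (by positivity); linarith
    have hHa : 0 < H - a1 (k + 1) n := by
      by_contra hneg
      push Not at hneg
      have : sp ^ 2 * (H - a1 (k + 1) n) ≤ 0 :=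
        mul_nonpos_of_nonneg_of_nonpos (sq_nonneg _) hneg
      linarith
    have hsq : sp ^ 2 ≤ x i ^ 2 := pow_le_pow_left₀ hsp0.le hcase1 2
    have h8 : x i ^ 2 * H ≤ x i ^ 2 *
        (2 * y * (w - (k + 1) / ((n : ℝ) - 1)) - y ^ 2 * r + w) :=
      mul_le_mul_of_nonneg_left hlow (sq_nonneg _)
    have h9 : sp ^ 2 * (H - a1 (k + 1) n) ≤ x i ^ 2 * (H - a1 (k + 1) n) :=
      mul_le_mul_of_nonneg_right hsq hHa.le
    nlinarith
  push Not at hcase1
  by_cases hcase2 : x j ≤ -sm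
  · -- large negative element
    have hxj : x j < 0 := by linarith
    have hnc := n_case hj hk (by omega) x hx hQ hxj
    rw [hV] at hnc
    have hE : ((k + 1 : ℝ) / ((n : ℝ) - 1)) * (1 - x j ^ 2) +
      (((k + 1 : ℝ) * k) / (((n : ℝ) - 1) * (n - 2))) * (2 * x j ^ 2 - 1) =
      a0 (k + 1) n + a1 (k + 1) n * x j ^ 2 := by
      unfold a0 a1
      rw [show ((k : ℝ) + 1 - 1) = k by ring]
      ring
    rw [hE] at hnc
    have hsq : sm ^ 2 ≤ x j ^ 2 := by
      have : sm ≤ -x j := by linarith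
      have := pow_le_pow_left₀ hsm0.le this 2
      rwa [neg_sq] at this
    have hpos1 : 0 < (((n : ℝ) - (k + 1)) / n) * (((k + 1 : ℝ) / ((n : ℝ) - 1)) ^ 2 * x j ^ 2) := by
      have : 0 < x j ^ 2 := by
        have := mul_pos_of_neg_of_neg hxj hxj
        rwa [← sq] at this
      positivity
    have hφ0 : 0 ≤ av (k + 1) V (nn x) := av_nonneg fun S _ _ => nn_nonneg x S
    have hEpos : 0 < a0 (k + 1) n + a1 (k + 1) n * x j ^ 2 := by
      by_contra hneg
      push Not at hneg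
      have : (a0 (k + 1) n + a1 (k + 1) n * x j ^ 2) * av (k + 1) V (nn x) ≤ 0 :=
        mul_nonpos_of_nonpos_of_nonneg hneg hφ0
      linarith
    have h1 : (a0 (k + 1) n + a1 (k + 1) n * x j ^ 2) * av (k + 1) V (nn x) <
        (a0 (k + 1) n + a1 (k + 1) n * x j ^ 2) * τ := mul_lt_mul_of_pos_left hcon hEpos
    set B := (((n : ℝ) - (k + 1)) / n) * ((k + 1 : ℝ) / ((n : ℝ) - 1)) ^ 2 - τ * a1 (k + 1) n
      with hB'
    have ha0 : 0 < a0 (k + 1) n := by
      unfold a0
      have : (k + 1 : ℝ) / ((n : ℝ) - 1) - (k + 1) * ((k + 1) - 1) / (((n : ℝ) - 1) * (n - 2)) =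
          (k + 1) * ((n : ℝ) - 1 - (k + 1)) / (((n : ℝ) - 1) * (n - 2)) := by
        field_simp; ring
      rw [this]
      apply div_pos _ (by positivity)
      apply mul_pos (by positivity); linarith
    have hτ0 : 0 < τ := lt_of_le_of_lt hφ0 hcon
    have hBpos : 0 < B := by
      by_contra hneg
      push Not at hneg
      have h2 : sm ^ 2 * B ≤ 0 := mul_nonpos_of_nonneg_of_nonpos (sq_nonneg _) hneg
      have : 0 < τ * a0 (k + 1) n := mul_pos hτ0 ha0
      linarith
    have h2 : sm ^ 2 * B ≤ x j ^ 2 * B := mul_le_mul_of_nonneg_right hsq hBpos.le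
    have h3 : τ * a0 (k + 1) n ≤ x j ^ 2 * B := hNc.trans h2
    rw [hB'] at h3
    nlinarith
  · -- no large element
    push Not at hcase2
    have hd := direct (k := k + 1) (V := V) x (by omega) (by omega) hx hQ
      (sp := sp) (sm := sm)
      (pen := max (A4 (k + 1) n * sp ^ 2 + 18 / 100 * A3 (k + 1) n * sp)
        (A4 (k + 1) n * sm ^ 2 - 18 / 100 * A3 (k + 1) n * sm))
      (fun l hl => (himax l hl).trans hcase1.le)
      (fun l hl => hcase2.le.trans (hjmin l hl))
      (by linarith) (by rw [hV]; push_cast; exact hA4)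
      (by rw [hV]; push_cast; exact le_max_left _ _)
      (by rw [hV]; push_cast; exact le_max_right _ _)
    rw [hV] at hd
    push_cast at hd
    rcases max_cases (A4 ((k : ℝ) + 1) n * sp ^ 2 + 18 / 100 * A3 ((k : ℝ) + 1) n * sp)
        (A4 ((k : ℝ) + 1) n * sm ^ 2 - 18 / 100 * A3 ((k : ℝ) + 1) n * sm) with hm | hm
    · rw [hm.1] at hd; linarith
    · rw [hm.1] at hd; linarith

end Pool.Agent.H59.MMS
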