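import Pool.Agent.H59.MMS.Level

/-!
The level lemma with denominators cleared.
-/

set_option autoImplicit false
set_option linter.unusedSectionVars false

namespace Pool.Agent.H59.MMS

open Finset

variable {α : Type*} [DecidableEq α]

/-- Version with cleared denominators, with `nt` standing for `n * τ`. -/
theorem level_poly {k n : ℕ} {ℓ τ w0 y sp sm K N nt : ℝ} (hKdef : K = k + 1) (hNdef : N = n)
    (hnt : N * τ = nt)
    (hk : 1 ≤ k) (hn : 2 * (k + 1) ≤ n)
    (hLB : LB α (k + 1) (n - (k + 1)) ℓ) (hτ : τ ≤ 1)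
    (hδ : nt ≤ K) (hw0 : 0 < w0) (hy : 0 ≤ y)
    (hsp0 : 0 < sp) (hsm0 : 0 < sm)
    (hA : 0 < ℓ * (N - K) - (K * w0 - K + nt))
    (hB : (K - 1) * K * (K * w0 - K + nt) * (1 - w0) <
      (ℓ * (N - K) - (K * w0 - K + nt)) ^ 2 * (N - K - 1) * w0)
    (hC : (K - 1) * (K * w0 - K + nt) ≤
      2 * w0 * (N - K - 1) * (ℓ * (N - K) - (K * w0 - K + nt)))
    (hU0 : y ^ 2 * K ≤ (1 + 2 * y) * (N - K))
    (hU : K * (N - 1 - K) * (N - K) < sp ^ 2 * ((N - 1) * (N - 2) *
      (w0 * ((1 + 2 * y) * (N - K) - y ^ 2 * K) + y ^ 2 * (K - nt)) -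
      2 * y * K * (N - 2) * (N - K) - K * (2 * K - N) * (N - K)))
    (hNc : nt * (N - 1) * (N - 1 - K) ≤
      sm ^ 2 * ((N - K) * K * (N - 2) - nt * (N - 1) * (2 * K - N)))
    (hA4 : 6 * K * (N - K) ≤ N * (N + 1))
    (hD1 : 3511 / 10000 * nt * ((N - 1) * (N - 2) * (N - 3)) ≤ K * (N - K) *
      (8319 / 10000 * ((N - 2) * (N - 3)) - 3 * (K - 1) * (N - K - 1) -
        (sp ^ 2 * (N * (N + 1) - 6 * K * (N - K)) + 18 / 100 * sp * ((N - 2 * K) * (N - 3)))))
    (hD2 : 3511 / 10000 * nt * ((N - 1) * (N - 2) * (N - 3)) ≤ K * (N - K) *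
      (8319 / 10000 * ((N - 2) * (N - 3)) - 3 * (K - 1) * (N - K - 1) -
        (sm ^ 2 * (N * (N + 1) - 6 * K * (N - K)) - 18 / 100 * sm * ((N - 2 * K) * (N - 3))))) :
    LB α (k + 1) n τ := by
  have hnt' : τ * N = nt := by rw [mul_comm]; exact hnt
  rw [← hnt] at hδ hA hB hC hU hNc hD1 hD2
  have hnR : (2 * (k + 1) : ℝ) ≤ n := by exact_mod_cast hn
  have hkR : (1 : ℝ) ≤ k := by exact_mod_cast hk
  have hkK : (k : ℝ) = K - 1 := by rw [hKdef]; ring
  have hK2 : 2 ≤ K := by rw [hKdef]; linarith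
  have hNK2 : 2 * K ≤ N := by rw [hKdef, hNdef]; exact hnR
  have hN0 : 0 < N := by linarith
  have hNK : 0 < N - K := by linarith
  have hNK1 : 0 < N - K - 1 := by linarith
  have hN1 : 0 < N - 1 := by linarith
  have hN2 : 0 < N - 2 := by linarith
  have hN3 : 0 < N - 3 := by linarith
  have hK0 : 0 < K := by linarith
  refine level (ℓ := ℓ) (w0 := w0) (y := y) (sp := sp) (sm := sm) hk hn hLB hτ ?_ hw0 hy hsp0
    hsm0 ?_ ?_ ?_ ?_ ?_ ?_ ?_ ?_ ?_
  · rw [← hKdef, ← hNdef]; exact hδ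
  · rw [← hKdef, ← hNdef]
    have : ℓ - (K * w0 - K + N * τ) / (N - K) =
        (ℓ * (N - K) - (K * w0 - K + N * τ)) / (N - K) := by field_simp
    rw [this]; positivity
  · rw [hkK, show K - 1 + 1 = K by ring, ← hNdef, ← sub_pos]
    have : (ℓ - (K * w0 - K + N * τ) / (N - K)) ^ 2 -
        (K - 1) * K / ((N - K) * (N - K - 1)) * ((K * w0 - K + N * τ) / (N - K) / w0) *
          (1 - w0) =
        ((ℓ * (N - K) - (K * w0 - K + N * τ)) ^ 2 * (N - K - 1) * w0 -
          (K - 1) * K * (K * w0 - K + N * τ) * (1 - w0)) /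
          ((N - K) ^ 2 * (N - K - 1) * w0) := by
      field_simp
    rw [this]
    apply div_pos (by linarith) (by positivity)
  · rw [hkK, show K - 1 + 1 = K by ring, ← hNdef, ← sub_nonneg]
    have : 2 * (K / (N - K)) * (ℓ - (K * w0 - K + N * τ) / (N - K)) -
        (K - 1) * K / ((N - K) * (N - K - 1)) * ((K * w0 - K + N * τ) / (N - K) / w0) =
        K * (2 * w0 * (N - K - 1) * (ℓ * (N - K) - (K * w0 - K + N * τ)) -
          (K - 1) * (K * w0 - K + N * τ)) / ((N - K) ^ 2 * (N - K - 1) * w0) := by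
      field_simp
    rw [this]
    apply div_nonneg (mul_nonneg hK0.le (by linarith)) (by positivity)
  · rw [← hKdef, ← hNdef]
    have : 1 + 2 * y - y ^ 2 * (K / (N - K)) =
        ((1 + 2 * y) * (N - K) - y ^ 2 * K) / (N - K) := by field_simp
    rw [this]
    apply div_nonneg (by linarith) hNK.le
  · rw [← hKdef, ← hNdef, ← sub_pos]
    unfold a0 a1
    have : sp ^ 2 * (w0 * (1 + 2 * y - y ^ 2 * (K / (N - K))) - 2 * y * (K / (N - 1)) +
        y ^ 2 * ((K - N * τ) / (N - K)) -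
        (2 * (K * (K - 1) / ((N - 1) * (N - 2))) - K / (N - 1))) -
        (K / (N - 1) - K * (K - 1) / ((N - 1) * (N - 2))) =
        (sp ^ 2 * ((N - 1) * (N - 2) *
      (w0 * ((1 + 2 * y) * (N - K) - y ^ 2 * K) + y ^ 2 * (K - N * τ)) -
      2 * y * K * (N - 2) * (N - K) - K * (2 * K - N) * (N - K)) - K * (N - 1 - K) * (N - K)) /
      ((N - 1) * (N - 2) * (N - K)) := by
      field_simp
      ring
    rw [this]
    apply div_pos (by linarith) (by positivity)
  · rw [← hKdef, ← hNdef, ← sub_nonneg]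
    unfold a0 a1
    have : sm ^ 2 * (((N - K) / N) * (K / (N - 1)) ^ 2 -
        τ * (2 * (K * (K - 1) / ((N - 1) * (N - 2))) - K / (N - 1))) -
        τ * (K / (N - 1) - K * (K - 1) / ((N - 1) * (N - 2))) =
        K * (sm ^ 2 * ((N - K) * K * (N - 2) - τ * N * (N - 1) * (2 * K - N)) -
          τ * N * (N - 1) * (N - 1 - K)) / (N * (N - 1) ^ 2 * (N - 2)) := by
      field_simp
      ring
    rw [this]
    apply div_nonneg (mul_nonneg hK0.le (by linarith)) (by positivity)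
  · rw [← hKdef, ← hNdef]
    unfold A4
    apply div_nonneg _ (by positivity)
    apply mul_nonneg (by positivity); linarith
  · rw [← hKdef, ← hNdef, ← sub_nonneg]
    unfold A2 A3 A4 A22
    have : 8319 / 10000 * (K * (N - K) / (N * (N - 1))) -
        3 * K * (K - 1) * (N - K) * (N - K - 1) / (N * (N - 1) * (N - 2) * (N - 3)) -
        (K * (N - K) * (N * (N + 1) - 6 * K * (N - K)) / (N * (N - 1) * (N - 2) * (N - 3)) *
          sp ^ 2 + 18 / 100 * (K * (N - K) * (N - 2 * K) / (N * (N - 1) * (N - 2))) * sp) -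
        3511 / 10000 * τ =
        (K * (N - K) *
      (8319 / 10000 * ((N - 2) * (N - 3)) - 3 * (K - 1) * (N - K - 1) -
        (sp ^ 2 * (N * (N + 1) - 6 * K * (N - K)) + 18 / 100 * sp * ((N - 2 * K) * (N - 3)))) -
        3511 / 10000 * (τ * N) * ((N - 1) * (N - 2) * (N - 3))) /
        (N * (N - 1) * (N - 2) * (N - 3)) := by
      field_simp
    rw [this]
    apply div_nonneg (by linarith) (by positivity)
  · rw [← hKdef, ← hNdef, ← sub_nonneg]
    unfold A2 A3 A4 A22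
    have : 8319 / 10000 * (K * (N - K) / (N * (N - 1))) -
        3 * K * (K - 1) * (N - K) * (N - K - 1) / (N * (N - 1) * (N - 2) * (N - 3)) -
        (K * (N - K) * (N * (N + 1) - 6 * K * (N - K)) / (N * (N - 1) * (N - 2) * (N - 3)) *
          sm ^ 2 - 18 / 100 * (K * (N - K) * (N - 2 * K) / (N * (N - 1) * (N - 2))) * sm) -
        3511 / 10000 * τ =
        (K * (N - K) *
      (8319 / 10000 * ((N - 2) * (N - 3)) - 3 * (K - 1) * (N - K - 1) -
        (sm ^ 2 * (N * (N + 1) - 6 * K * (N - K)) - 18 / 100 * sm * ((N - 2 * K) * (N - 3)))) -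
        3511 / 10000 * (τ * N) * ((N - 1) * (N - 2) * (N - 3))) /
        (N * (N - 1) * (N - 2) * (N - 3)) := by
      field_simp
    rw [this]
    apply div_nonneg (by linarith) (by positivity)

end Pool.Agent.H59.MMS
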