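import Pool.Agent.H59.MMS.Moments

/-!
The mixing lemma: the maximal correlation between a random `a`-subset and a random `b`-subset
disjoint from it.
-/

set_option autoImplicit false
set_option linter.unusedSectionVars false

namespace Pool.Agent.H59.MMS

open Finset

variable {α : Type*} [DecidableEq α]

theorem av_peel' {k : ℕ} {V : Finset α} (hk : k + 1 ≤ V.card) (F : Finset α → ℝ) :
    av (k + 1) V F = (∑ i ∈ V, av k (V.erase i) (fun S => F (insert i S))) / V.card := by
  have hk0 : (k + 1 : ℝ) ≠ 0 := by positivity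
  have h1 : av (k + 1) V F =
      av (k + 1) V (fun S => ∑ i ∈ S,
        (fun i S' => (1 / (k + 1 : ℝ)) * F (insert i S')) i (S.erase i)) := by
    refine av_congr fun S _ hc => ?_
    have : ∀ i ∈ S, (fun i S' => (1 / (k + 1 : ℝ)) * F (insert i S')) i (S.erase i) =
        (1 / (k + 1 : ℝ)) * F S := by
      intro i hi
      simp only [Finset.insert_erase hi]
    rw [Finset.sum_congr rfl this, Finset.sum_const, hc, nsmul_eq_mul]
    push_cast
    field_simp
  rw [h1, av_peel hk (fun i S' => (1 / (k + 1 : ℝ)) * F (insert i S'))]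
  have h2 : ∀ i ∈ V, av k (V.erase i) (fun S' => (1 / (k + 1 : ℝ)) * F (insert i S')) =
      (1 / (k + 1 : ℝ)) * av k (V.erase i) (fun S' => F (insert i S')) := by
    intro i _
    rw [← av_mul]
  rw [Finset.sum_congr rfl h2, ← Finset.mul_sum]
  field_simp

theorem av_erase_avg {b : ℕ} {M : Finset α} (hb : b + 1 ≤ M.card) (g : Finset α → ℝ) :
    (∑ s ∈ M, av b (M.erase s) g) / M.card = av b M g := by
  have h := av_avoid hb (fun _ S => g S)
  rw [h]
  have h3 : (M.card : ℝ) - b ≠ 0 := by
    have : (b : ℝ) + 1 ≤ M.card := by exact_mod_cast hb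
    linarith
  have h2 : av b M (fun S => ∑ _i ∈ M \ S, g S) = ((M.card : ℝ) - b) * av b M g := by
    rw [← av_mul]
    refine av_congr fun S hS hc => ?_
    rw [Finset.sum_const, nsmul_eq_mul, Finset.card_sdiff_of_subset hS, hc,
      Nat.cast_sub (by omega)]
  rw [h2]
  field_simp

theorem av_var {b : ℕ} {M : Finset α} (hb : b ≤ M.card) (g : Finset α → ℝ) (c : ℝ) :
    av b M (fun S => (g S - c) ^ 2) =
      av b M (fun S => g S ^ 2) - 2 * c * av b M g + c ^ 2 := by
  have : (fun S => (g S - c) ^ 2) = fun S => (g S ^ 2 - (2 * c) * g S) + c ^ 2 := by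
    funext S; ring
  rw [this, av_add, av_sub, av_mul, av_const hb]

theorem av_sq_le {b : ℕ} {M : Finset α} (hb : b ≤ M.card) (g : Finset α → ℝ) :
    (av b M g) ^ 2 ≤ av b M (fun S => g S ^ 2) := by
  have h := av_nonneg (k := b) (V := M) (F := fun S => (g S - av b M g) ^ 2)
    (fun S _ _ => sq_nonneg _)
  rw [av_var hb] at h
  nlinarith

/-- One revealed element. -/
theorem mixing_one {b : ℕ} {M : Finset α} (hb : b + 1 ≤ M.card) (hM : 2 ≤ M.card)
    (g : Finset α → ℝ) :
    (∑ s ∈ M, (av b (M.erase s) g) ^ 2) / M.card - (av b M g) ^ 2 ≤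
      (b / (((M.card : ℝ) - 1) * (M.card - b))) *
        (av b M (fun S => g S ^ 2) - (av b M g) ^ 2) := by
  have hm : (2 : ℝ) ≤ M.card := by exact_mod_cast hM
  have hm0 : (M.card : ℝ) ≠ 0 := by positivity
  have hm1 : 0 < (M.card : ℝ) - 1 := by linarith
  have hmb : 0 < (M.card : ℝ) - b := by
    have : (b : ℝ) + 1 ≤ M.card := by exact_mod_cast hb
    linarith
  set μ := av b M g with hμ
  set d : α → ℝ := fun s => av b (M.erase s) g - μ with hd
  have hdsum : ∑ s ∈ M, d s = 0 := by
    have h := av_erase_avg hb g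
    rw [div_eq_iff hm0] at h
    simp only [hd]
    rw [Finset.sum_sub_distrib, h, Finset.sum_const, nsmul_eq_mul]
    ring
  set D : ℝ := (∑ s ∈ M, d s ^ 2) / M.card with hD
  have hD0 : 0 ≤ D := by
    rw [hD]; exact div_nonneg (Finset.sum_nonneg fun s _ => sq_nonneg _) (by positivity)
  have hLHS : (∑ s ∈ M, (av b (M.erase s) g) ^ 2) / M.card - μ ^ 2 = D := by
    have h1 : ∀ s ∈ M, (av b (M.erase s) g) ^ 2 = d s ^ 2 + (2 * μ) * d s + μ ^ 2 := by
      intro s _; simp only [hd]; ring
    rw [Finset.sum_congr rfl h1, Finset.sum_add_distrib, Finset.sum_add_distrib,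
      ← Finset.mul_sum, hdsum, Finset.sum_const, nsmul_eq_mul, hD]
    field_simp
    ring
  rw [hLHS]
  -- covariance identity
  have hcov : D * ((M.card : ℝ) - b) = - av b M (fun S => (∑ s ∈ S, d s) * (g S - μ)) := by
    have h1 : D = (∑ s ∈ M, av b (M.erase s) (fun S => d s * g S)) / M.card := by
      rw [hD]
      congr 1
      have : ∀ s ∈ M, av b (M.erase s) (fun S => d s * g S) = d s ^ 2 + μ * d s := by
        intro s _
        rw [av_mul]; simp only [hd]; ring
      rw [Finset.sum_congr rfl this, Finset.sum_add_distrib, ← Finset.mul_sum, hdsum]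
      ring
    rw [h1, av_avoid hb (fun s S => d s * g S), div_mul_cancel₀ _ hmb.ne']
    have h2 : av b M (fun S => ∑ i ∈ M \ S, d i * g S) =
        av b M (fun S => (-1 : ℝ) * ((∑ s ∈ S, d s) * (g S - μ)) +
          (-μ) * ∑ s ∈ S, d s) := by
      refine av_congr fun S hS _ => ?_
      rw [← Finset.sum_mul]
      have : ∑ i ∈ M \ S, d i = - ∑ s ∈ S, d s := by
        have := Finset.sum_sdiff hS (f := d)
        linarith [this, hdsum]
      rw [this]; ring
    rw [h2, av_add, av_mul, av_mul, mom1 (by omega) (by omega), hdsum]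
    ring
  have hcs := av_cs b M (fun S => ∑ s ∈ S, d s) (fun S => g S - μ)
  have hd2 : av b M (fun S => (∑ s ∈ S, d s) ^ 2) =
      ((b : ℝ) * (M.card - b) / (M.card - 1)) * D := by
    rw [mom2 (by omega) hM, hdsum, hD]
    field_simp
    ring
  have hvar : av b M (fun S => (g S - μ) ^ 2) = av b M (fun S => g S ^ 2) - μ ^ 2 := by
    rw [av_var (by omega)]; ring
  rw [hd2, hvar] at hcs
  have hV0 : 0 ≤ av b M (fun S => g S ^ 2) - μ ^ 2 := by
    have := av_sq_le (by omega : b ≤ M.card) g
    linarith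
  set W := av b M (fun S => g S ^ 2) - μ ^ 2 with hW
  have h5 : (D * ((M.card : ℝ) - b)) ^ 2 ≤
      ((b : ℝ) * (M.card - b) / (M.card - 1)) * D * W := by
    rw [hcov, neg_sq]; exact hcs
  rcases hD0.eq_or_lt with h0 | hpos
  · rw [← h0]; positivity
  · have h6 : D * ((M.card : ℝ) - b) ^ 2 ≤ ((b : ℝ) * (M.card - b) / (M.card - 1)) * W := by
      have : D * (D * ((M.card : ℝ) - b) ^ 2) ≤
          D * (((b : ℝ) * (M.card - b) / (M.card - 1)) * W) := by
        calc D * (D * ((M.card : ℝ) - b) ^ 2) = (D * ((M.card : ℝ) - b)) ^ 2 := by ring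
          _ ≤ _ := h5
          _ = _ := by ring
      exact le_of_mul_le_mul_left this hpos
    have h7 : D = (D * ((M.card : ℝ) - b) ^ 2) / ((M.card : ℝ) - b) ^ 2 := by
      field_simp
    rw [h7]
    rw [div_le_iff₀ (by positivity)]
    calc D * ((M.card : ℝ) - b) ^ 2 ≤ ((b : ℝ) * (M.card - b) / (M.card - 1)) * W := h6
      _ = _ := by field_simp

/-- **Mixing lemma.** -/
theorem mixing (g : Finset α → ℝ) {b : ℕ} : ∀ (a : ℕ) (M : Finset α), a + b ≤ M.card →
    av a M (fun A => (av b (M \ A) g) ^ 2) - (av b M g) ^ 2 ≤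
      ((a : ℝ) * b / (((M.card : ℝ) - a) * (M.card - b))) *
        (av b M (fun S => g S ^ 2) - (av b M g) ^ 2) := by
  rcases Nat.eq_zero_or_pos b with rfl | hbpos
  · intro a M h
    have : ∀ A : Finset α, av 0 (M \ A) g = g ∅ := fun A => av_zero _ _
    simp only [this, av_zero]
    rw [av_const (by omega)]
    simp
  intro a
  induction a with
  | zero =>
    intro M _
    rw [av_zero]
    simp
  | succ a ih =>
    intro M hM
    have hbM : b + 1 ≤ M.card := by omega
    have hM2 : 2 ≤ M.card := by omega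
    have hm : (a : ℝ) + 1 + b ≤ M.card := by exact_mod_cast hM
    have hb1 : (1 : ℝ) ≤ b := by exact_mod_cast hbpos
    have ha0 : (0 : ℝ) ≤ a := by positivity
    have hm0 : (M.card : ℝ) ≠ 0 := by
      have : (0 : ℝ) < M.card := by linarith
      exact this.ne'
    set μ := av b M g with hμ
    set c : ℝ := b / (((M.card : ℝ) - 1) * (M.card - b)) with hc
    set κ : ℝ := (a : ℝ) * b / (((M.card : ℝ) - 1 - a) * (M.card - 1 - b)) with hκ
    have hone := mixing_one hbM hM2 g
    rw [← hμ, ← hc] at hone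
    have hκ0 : 0 ≤ κ := by
      rw [hκ]; apply div_nonneg (by positivity)
      apply mul_nonneg <;> linarith
    have hκ1 : κ ≤ 1 := by
      rw [hκ]
      apply div_le_one_of_le₀
      · nlinarith
      · apply mul_nonneg <;> linarith
    have hpeel := av_peel' (k := a) (V := M) (by omega) (fun A => (av b (M \ A) g) ^ 2)
    have hstep : ∀ s ∈ M, av a (M.erase s) (fun A => (av b (M \ insert s A) g) ^ 2) ≤
        (1 - κ) * (av b (M.erase s) g) ^ 2 + κ * av b (M.erase s) (fun S => g S ^ 2) := by
      intro s hs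
      have e1 : av a (M.erase s) (fun A => (av b (M \ insert s A) g) ^ 2) =
          av a (M.erase s) (fun A => (av b ((M.erase s) \ A) g) ^ 2) := by
        refine av_congr fun A _ _ => ?_
        have : M \ insert s A = (M.erase s) \ A := by
          ext z; simp only [Finset.mem_sdiff, Finset.mem_insert, Finset.mem_erase]; tauto
        rw [this]
      have h := ih (M.erase s) (by rw [Finset.card_erase_of_mem hs]; omega)
      rw [card_erase_cast hs, ← hκ] at h
      rw [e1]
      linarith
    have hsum : (∑ s ∈ M, av a (M.erase s) (fun A => (av b (M \ insert s A) g) ^ 2)) / M.card ≤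
        (1 - κ) * ((∑ s ∈ M, (av b (M.erase s) g) ^ 2) / M.card) +
          κ * av b M (fun S => g S ^ 2) := by
      have h1 := Finset.sum_le_sum hstep
      rw [Finset.sum_add_distrib, ← Finset.mul_sum, ← Finset.mul_sum] at h1
      have h2 := av_erase_avg hbM (fun S => g S ^ 2)
      have h3 := div_le_div_of_nonneg_right h1 (show (0 : ℝ) ≤ M.card by positivity)
      rw [add_div, mul_div_assoc, mul_div_assoc, h2] at h3
      exact h3
    rw [hpeel]
    set W := av b M (fun S => g S ^ 2) with hW
    have hfin : (1 - κ) * c + κ =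
        (((a + 1 : ℕ) : ℝ) * b / (((M.card : ℝ) - ((a + 1 : ℕ) : ℝ)) * (M.card - b))) := by
      push_cast
      have hd1 : (M.card : ℝ) - 1 ≠ 0 := by
        have : (0:ℝ) < (M.card : ℝ) - 1 := by linarith
        exact this.ne'
      have hd2 : (M.card : ℝ) - b ≠ 0 := by
        have : (0:ℝ) < (M.card : ℝ) - b := by linarith
        exact this.ne'
      have hd3 : (M.card : ℝ) - (a + 1) ≠ 0 := by
        have : (0:ℝ) < (M.card : ℝ) - (a + 1) := by linarith
        exact this.ne'
      have hd3' : (M.card : ℝ) - 1 - a ≠ 0 := by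
        have : (0:ℝ) < (M.card : ℝ) - 1 - a := by linarith
        exact this.ne'
      rcases Nat.eq_zero_or_pos a with ha | ha
      · subst ha
        rw [hκ, hc]
        simp
      · have ha1 : (1 : ℝ) ≤ a := by exact_mod_cast ha
        have hd4 : (M.card : ℝ) - 1 - b ≠ 0 := by
          have : (0:ℝ) < (M.card : ℝ) - 1 - b := by linarith
          exact this.ne'
        rw [hκ, hc]
        field_simp
        ring
    rw [← hfin]
    have hfinal : (∑ s ∈ M, av a (M.erase s) (fun A => (av b (M \ insert s A) g) ^ 2)) / M.card ≤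
        (1 - κ) * (μ ^ 2 + c * (W - μ ^ 2)) + κ * W := by
      refine hsum.trans ?_
      have : (∑ s ∈ M, (av b (M.erase s) g) ^ 2) / M.card ≤ μ ^ 2 + c * (W - μ ^ 2) := by
        linarith
      have := mul_le_mul_of_nonneg_left this (show 0 ≤ 1 - κ by linarith)
      linarith
    nlinarith [hfinal]

end Pool.Agent.H59.MMS
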