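import Pool.Agent.H59.MMS.Av

/-!
Moments (up to order four) of the sum over a uniformly random `k`-subset.
-/

set_option autoImplicit false
set_option linter.unusedSectionVars false

namespace Pool.Agent.H59.MMS

open Finset

variable {α : Type*} [DecidableEq α]

/-- `av` of `x(S) * G(S)`, expanding over the element of `S`. -/
theorem av_sum_mul {k : ℕ} {V : Finset α} (hk : k + 1 ≤ V.card) (x : α → ℝ)
    (G : Finset α → ℝ) :
    av (k + 1) V (fun S => (∑ j ∈ S, x j) * G S) =
      ((k + 1 : ℝ) / V.card) *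
        ∑ i ∈ V, x i * av k (V.erase i) (fun S => G (insert i S)) := by
  have h1 : av (k + 1) V (fun S => (∑ j ∈ S, x j) * G S) =
      av (k + 1) V (fun S => ∑ i ∈ S, (fun i S' => x i * G (insert i S')) i (S.erase i)) := by
    refine av_congr fun S _ _ => ?_
    rw [Finset.sum_mul]
    refine Finset.sum_congr rfl fun i hi => ?_
    simp only [Finset.insert_erase hi]
  rw [h1, av_peel hk (fun i S' => x i * G (insert i S'))]
  congr 1
  refine Finset.sum_congr rfl fun i _ => ?_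
  rw [← av_mul]

theorem sum_insert_of_sub {V S : Finset α} {i : α} (hS : S ⊆ V.erase i) (x : α → ℝ) :
    ∑ j ∈ insert i S, x j = x i + ∑ j ∈ S, x j := by
  have hi : i ∉ S := fun hmem => (Finset.mem_erase.1 (hS hmem)).1 rfl
  rw [Finset.sum_insert hi]

theorem sum_erase_pow {V : Finset α} {i : α} (hi : i ∈ V) (x : α → ℝ) (n : ℕ) :
    ∑ j ∈ V.erase i, x j ^ n = ∑ j ∈ V, x j ^ n - x i ^ n := by
  rw [← Finset.add_sum_erase V (fun j => x j ^ n) hi]; ring

theorem sum_erase_one {V : Finset α} {i : α} (hi : i ∈ V) (x : α → ℝ) :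
    ∑ j ∈ V.erase i, x j = ∑ j ∈ V, x j - x i := by
  rw [← Finset.add_sum_erase V x hi]; ring

/-- First moment. -/
theorem mom1 {k : ℕ} {V : Finset α} (hk : k ≤ V.card) (hV : 1 ≤ V.card) (x : α → ℝ) :
    av k V (fun S => ∑ j ∈ S, x j) = (k / V.card : ℝ) * ∑ j ∈ V, x j := by
  rcases k with _ | k
  · simp [av_zero]
  · have h := av_sum_mul hk x (fun _ => (1 : ℝ))
    simp only [mul_one] at h
    rw [h]
    have : ∀ i ∈ V, x i * av k (V.erase i) (fun _ => (1 : ℝ)) = x i := by
      intro i hi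
      rw [av_const (by rw [Finset.card_erase_of_mem hi]; omega), mul_one]
    rw [Finset.sum_congr rfl this]
    push_cast
    ring

/-- Second moment. -/
theorem mom2 {k : ℕ} {V : Finset α} (hk : k ≤ V.card) (hV : 2 ≤ V.card) (x : α → ℝ) :
    av k V (fun S => (∑ j ∈ S, x j) ^ 2) =
      (k / V.card : ℝ) * ∑ j ∈ V, x j ^ 2 +
      ((k : ℝ) * (k - 1) / (V.card * (V.card - 1))) *
        ((∑ j ∈ V, x j) ^ 2 - ∑ j ∈ V, x j ^ 2) := by
  have hN : (2 : ℝ) ≤ V.card := by exact_mod_cast hV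
  have hN0 : (V.card : ℝ) ≠ 0 := by positivity
  have hN1 : (V.card : ℝ) - 1 ≠ 0 := by linarith
  rcases k with _ | k
  · simp [av_zero]
  · have h := av_sum_mul hk x (fun S => ∑ j ∈ S, x j)
    simp only [← sq] at h
    rw [h]
    set T := ∑ j ∈ V, x j with hT
    have h2 : ∀ i ∈ V, x i * av k (V.erase i) (fun S => ∑ j ∈ insert i S, x j) =
        (k / (V.card - 1) * T) * x i + (1 - k / (V.card - 1)) * x i ^ 2 := by
      intro i hi
      have e1 : av k (V.erase i) (fun S => ∑ j ∈ insert i S, x j) =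
          x i + (k / (V.card - 1)) * (T - x i) := by
        rw [av_congr (G := fun S => x i + ∑ j ∈ S, x j)
          (fun S hS _ => sum_insert_of_sub hS x), av_add,
          av_const (by rw [Finset.card_erase_of_mem hi]; omega),
          mom1 (by rw [Finset.card_erase_of_mem hi]; omega)
            (by rw [Finset.card_erase_of_mem hi]; omega), card_erase_cast hi,
          sum_erase_one hi]
      rw [e1]; ring
    rw [Finset.sum_congr rfl h2, Finset.sum_add_distrib, ← Finset.mul_sum, ← Finset.mul_sum,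
      ← hT]
    push_cast
    field_simp
    ring

/-- Third moment. -/
theorem mom3 {k : ℕ} {V : Finset α} (hk : k ≤ V.card) (hV : 3 ≤ V.card) (x : α → ℝ) :
    av k V (fun S => (∑ j ∈ S, x j) ^ 3) =
      (k / V.card : ℝ) * ∑ j ∈ V, x j ^ 3 +
      3 * ((k : ℝ) * (k - 1) / (V.card * (V.card - 1))) *
        ((∑ j ∈ V, x j) * (∑ j ∈ V, x j ^ 2) - ∑ j ∈ V, x j ^ 3) +
      ((k : ℝ) * (k - 1) * (k - 2) / (V.card * (V.card - 1) * (V.card - 2))) *
        ((∑ j ∈ V, x j) ^ 3 - 3 * (∑ j ∈ V, x j) * (∑ j ∈ V, x j ^ 2) +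
          2 * ∑ j ∈ V, x j ^ 3) := by
  have hN : (3 : ℝ) ≤ V.card := by exact_mod_cast hV
  have hN0 : (V.card : ℝ) ≠ 0 := by positivity
  have hN1 : (V.card : ℝ) - 1 ≠ 0 := by linarith
  have hN2 : (V.card : ℝ) - 2 ≠ 0 := by linarith
  rcases k with _ | k
  · simp [av_zero]
  · have h := av_sum_mul hk x (fun S => (∑ j ∈ S, x j) ^ 2)
    have h' : (fun S : Finset α => (∑ j ∈ S, x j) ^ 3) =
        fun S => (∑ j ∈ S, x j) * (∑ j ∈ S, x j) ^ 2 := by
      funext S; ring
    rw [h', h]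
    set T := ∑ j ∈ V, x j with hT
    set P2 := ∑ j ∈ V, x j ^ 2 with hP2
    set P3 := ∑ j ∈ V, x j ^ 3 with hP3
    have hN12 : ((V.card : ℝ) - 1) - 1 ≠ 0 := by linarith
    have h2 : ∀ i ∈ V, x i * av k (V.erase i) (fun S => (∑ j ∈ insert i S, x j) ^ 2) =
        (k / (V.card - 1) * P2 +
          (k : ℝ) * (k - 1) / ((V.card - 1) * (V.card - 2)) * (T ^ 2 - P2)) * x i +
        (2 * (k / (V.card - 1)) * T
          - 2 * ((k : ℝ) * (k - 1) / ((V.card - 1) * (V.card - 2))) * T) * x i ^ 2 +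
        (1 - 3 * (k / (V.card - 1)) +
          2 * ((k : ℝ) * (k - 1) / ((V.card - 1) * (V.card - 2)))) * x i ^ 3 := by
      intro i hi
      have hc : k ≤ (V.erase i).card := by rw [Finset.card_erase_of_mem hi]; omega
      have e1 : av k (V.erase i) (fun S => (∑ j ∈ insert i S, x j) ^ 2) =
          x i ^ 2 + (2 * x i) * ((k / (V.card - 1)) * (T - x i)) +
          ((k / (V.card - 1)) * (P2 - x i ^ 2) +
            ((k : ℝ) * (k - 1) / ((V.card - 1) * (V.card - 2))) *
              ((T - x i) ^ 2 - (P2 - x i ^ 2))) := by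
        rw [av_congr (G := fun S => (x i ^ 2 + (2 * x i) * ∑ j ∈ S, x j) + (∑ j ∈ S, x j) ^ 2)
          (fun S hS _ => by rw [sum_insert_of_sub hS x]; ring), av_add, av_add, av_mul,
          av_const hc,
          mom1 hc (by rw [Finset.card_erase_of_mem hi]; omega),
          mom2 hc (by rw [Finset.card_erase_of_mem hi]; omega), card_erase_cast hi,
          sum_erase_one hi, sum_erase_pow hi]
        rw [show ((V.card : ℝ) - 1) - 1 = V.card - 2 by ring]
      rw [e1]; ring
    rw [Finset.sum_congr rfl h2, Finset.sum_add_distrib, Finset.sum_add_distrib,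
      ← Finset.mul_sum, ← Finset.mul_sum, ← Finset.mul_sum, ← hT, ← hP2, ← hP3]
    push_cast
    field_simp
    ring

/-- Fourth moment, for a population with zero total. -/
theorem mom4 {k : ℕ} {V : Finset α} (hk : k ≤ V.card) (hV : 4 ≤ V.card) (x : α → ℝ)
    (hx : ∑ j ∈ V, x j = 0) :
    av k V (fun S => (∑ j ∈ S, x j) ^ 4) =
      ((k : ℝ) * (V.card - k) * (V.card * (V.card + 1) - 6 * k * (V.card - k)) /
        (V.card * (V.card - 1) * (V.card - 2) * (V.card - 3))) * ∑ j ∈ V, x j ^ 4 +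
      (3 * (k : ℝ) * (k - 1) * (V.card - k) * (V.card - k - 1) /
        (V.card * (V.card - 1) * (V.card - 2) * (V.card - 3))) *
        (∑ j ∈ V, x j ^ 2) ^ 2 := by
  have hN : (4 : ℝ) ≤ V.card := by exact_mod_cast hV
  have hN0 : (V.card : ℝ) ≠ 0 := by positivity
  have hN1 : (V.card : ℝ) - 1 ≠ 0 := by linarith
  have hN2 : (V.card : ℝ) - 2 ≠ 0 := by linarith
  have hN3 : (V.card : ℝ) - 3 ≠ 0 := by linarith
  rcases k with _ | k
  · simp [av_zero]
  · have h := av_sum_mul hk x (fun S => (∑ j ∈ S, x j) ^ 3)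
    have h' : (fun S : Finset α => (∑ j ∈ S, x j) ^ 4) =
        fun S => (∑ j ∈ S, x j) * (∑ j ∈ S, x j) ^ 3 := by
      funext S; ring
    rw [h', h]
    set P2 := ∑ j ∈ V, x j ^ 2 with hP2
    set P3 := ∑ j ∈ V, x j ^ 3 with hP3
    set P4 := ∑ j ∈ V, x j ^ 4 with hP4
    set q1 : ℝ := k / (V.card - 1) with hq1
    set q2 : ℝ := (k : ℝ) * (k - 1) / ((V.card - 1) * (V.card - 2)) with hq2
    set q3 : ℝ := (k : ℝ) * (k - 1) * (k - 2) / ((V.card - 1) * (V.card - 2) * (V.card - 3))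
      with hq3
    have h2 : ∀ i ∈ V, x i * av k (V.erase i) (fun S => (∑ j ∈ insert i S, x j) ^ 3) =
        (q1 * P3 + 3 * q2 * (-P3) + 2 * q3 * P3) * x i +
        (3 * q1 * P2 + 3 * q2 * (-2 * P2) + q3 * (3 * P2)) * x i ^ 2 +
        (1 - 3 * q1 - 3 * q1 - q1 + 3 * q2 * 4 - 6 * q3) * x i ^ 4 := by
      intro i hi
      have hc : k ≤ (V.erase i).card := by rw [Finset.card_erase_of_mem hi]; omega
      have e1 : av k (V.erase i) (fun S => (∑ j ∈ insert i S, x j) ^ 3) =
          x i ^ 3 + (3 * x i ^ 2) * (q1 * (0 - x i)) +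
          (3 * x i) * (q1 * (P2 - x i ^ 2) + q2 * ((0 - x i) ^ 2 - (P2 - x i ^ 2))) +
          (q1 * (P3 - x i ^ 3) + 3 * q2 * ((0 - x i) * (P2 - x i ^ 2) - (P3 - x i ^ 3)) +
            q3 * ((0 - x i) ^ 3 - 3 * (0 - x i) * (P2 - x i ^ 2) + 2 * (P3 - x i ^ 3))) := by
        rw [av_congr (G := fun S => ((x i ^ 3 + (3 * x i ^ 2) * ∑ j ∈ S, x j) +
            (3 * x i) * (∑ j ∈ S, x j) ^ 2) + (∑ j ∈ S, x j) ^ 3)
          (fun S hS _ => by rw [sum_insert_of_sub hS x]; ring), av_add, av_add, av_add, av_mul,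
          av_mul, av_const hc,
          mom1 hc (by rw [Finset.card_erase_of_mem hi]; omega),
          mom2 hc (by rw [Finset.card_erase_of_mem hi]; omega),
          mom3 hc (by rw [Finset.card_erase_of_mem hi]; omega), card_erase_cast hi,
          sum_erase_one hi, sum_erase_pow hi, sum_erase_pow hi, hx]
        rw [show ((V.card : ℝ) - 1) - 1 = V.card - 2 by ring,
          show ((V.card : ℝ) - 1) - 2 = V.card - 3 by ring]
      rw [e1]; ring
    rw [Finset.sum_congr rfl h2, Finset.sum_add_distrib, Finset.sum_add_distrib,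
      ← Finset.mul_sum, ← Finset.mul_sum, ← Finset.mul_sum, hx, ← hP2, ← hP4, hq1, hq2, hq3]
    push_cast
    field_simp
    ring

end Pool.Agent.H59.MMS
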